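import Mathlib

/-!
# Finitary factors of i.i.d. colourings of `ℤ^d`: definitions

Labels take values in an arbitrary probability space `(E, ν)`.
-/

open MeasureTheory
open scoped ENNReal

namespace Pool.Agent.FFIID

/-- The vertices of the lattice `ℤ^d`. -/
abbrev Site (d : ℕ) : Type := Fin d → ℤ

/-- The `ℓ¹` norm of a lattice vector. -/
def l1 {d : ℕ} (v : Site d) : ℕ := ∑ i, (v i).natAbs

/-- `u` and `v` are neighbours in the lattice `ℤ^d`. -/
def Adj {d : ℕ} (u v : Site d) : Prop := l1 (u - v) = 1

/-- The translation by `v` of a function on `ℤ^d`. -/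
def shift {d : ℕ} {A : Type*} (v : Site d) (y : Site d → A) : Site d → A := fun u => y (u + v)

/-- The law of a family of i.i.d. labels with common law `ν`, indexed by `ℤ^d`. -/
noncomputable def iid (d : ℕ) {E : Type*} [MeasurableSpace E] (ν : Measure E) :
    Measure (Site d → E) :=
  Measure.infinitePi fun _ => ν

/-- The colour at the origin of `F y` is determined by the labels of `y` on the ball
`B(0, r)` (for the graph distance of `ℤ^d`): every configuration `y'` which agrees with `y` on
this ball has the same colour at the origin. -/
def Determines {d : ℕ} {E : Type*} (F : (Site d → E) → Site d → Fin 3) (y : Site d → E)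
    (r : ℕ) : Prop :=
  ∀ y' : Site d → E, (∀ u, l1 u ≤ r → y' u = y u) → F y' 0 = F y 0

/-- The coding radius of `F` at the configuration `y`: the least `r` such that the colour at
the origin is determined by the labels on `B(0, r)` (and `∞` if there is none). -/
noncomputable def codingRadius {d : ℕ} {E : Type*} (F : (Site d → E) → Site d → Fin 3)
    (y : Site d → E) : ℝ≥0∞ :=
  ⨅ (r : ℕ) (_ : Determines F y r), (r : ℝ≥0∞)

/-- `F` is a finitary factor of i.i.d. proper 3-colouring of `ℤ^d` (an ffiid 3-colouring), for
labels of law `ν`: `F` is measurable, commutes with all translations, has an almost surely finite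
coding radius, and `F y` is almost surely a proper colouring. -/
structure IsFFIIDColoring (d : ℕ) {E : Type*} [MeasurableSpace E] (ν : Measure E)
    (F : (Site d → E) → Site d → Fin 3) : Prop where
  measurable : Measurable F
  equivariant : ∀ (v : Site d) (y : Site d → E), F (shift v y) = shift v (F y)
  finitary : ∀ᵐ y ∂(iid d ν), ∃ r : ℕ, Determines F y r
  proper : ∀ᵐ y ∂(iid d ν), ∀ u v : Site d, Adj u v → F y u ≠ F y v

end Pool.Agent.FFIID
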