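import Mathlib
import Pool.Agent.Lib_helper92.FFIID.Defs

/-!
# From a nested family of clusterings to a proper 3-colouring (deterministic part)
-/

open Finset

namespace Pool.Agent.FFIID

variable {d : ℕ}

/-- `x` and `y` are within sup-distance `r`. -/
def Near (r : ℤ) (x y : Site d) : Prop := ∀ i, |x i - y i| ≤ r

lemma Near.symm {r : ℤ} {x y : Site d} (h : Near r x y) : Near r y x := fun i => by
  rw [abs_sub_comm]; exact h i

lemma Near.trans {r s : ℤ} {x y z : Site d} (h : Near r x y) (h' : Near s y z) :
    Near (r + s) x z := fun i => by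
  have := abs_sub_le (x i) (y i) (z i)
  have h1 := h i
  have h2 := h' i
  linarith

lemma Near.mono {r s : ℤ} {x y : Site d} (h : Near r x y) (hrs : r ≤ s) : Near s x y :=
  fun i => (h i).trans hrs

lemma Near.refl {r : ℤ} (hr : 0 ≤ r) (x : Site d) : Near r x x := fun i => by simpa using hr

lemma near_of_adj {x y : Site d} (h : Adj x y) : Near 1 x y := by
  intro i
  have h1 : ((x - y) i).natAbs ≤ l1 (x - y) :=
    Finset.single_le_sum (f := fun i => ((x - y) i).natAbs) (fun _ _ => Nat.zero_le _) (mem_univ i)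
  unfold Adj at h
  rw [h, Pi.sub_apply] at h1
  rw [Int.abs_eq_natAbs]
  exact_mod_cast h1

lemma odd_of_adj {x y : Site d} (h : Adj x y) : Odd (∑ i, (x i - y i)) := by
  unfold Adj l1 at h
  have h1 : (∑ i, (x i - y i)) % 2 = (∑ i, (((x - y) i).natAbs : ℤ)) % 2 := by
    rw [Finset.sum_int_mod, Finset.sum_int_mod (f := fun i => (((x - y) i).natAbs : ℤ))]
    congr 1
    refine sum_congr rfl fun i _ => ?_
    rw [Pi.sub_apply]
    omega
  have h2 : (∑ i, (((x - y) i).natAbs : ℤ)) = 1 := by
    rw [← Nat.cast_sum, h]; rfl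
  rw [h2] at h1
  rw [Int.odd_iff]
  exact h1

/-- The first level at which `x` is deep (`0` if there is none). -/
noncomputable def kap (deep : ℕ → Site d → Prop) (x : Site d) : ℕ := sInf {k | deep k x}

/-- The centre which is assigned to `x`. -/
noncomputable def cen (o : ℕ → Site d → Site d) (deep : ℕ → Site d → Prop) (x : Site d) :
    Site d := o (kap deep x + 1) x

/-- Some site `z` within distance `r` of `x` is settled earlier than `x`, with a centre of the
other parity. -/
def Flip (o : ℕ → Site d → Site d) (deep : ℕ → Site d → Prop) (r : ℤ) (x : Site d) : Prop :=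
  ∃ z, Near r x z ∧ deep (kap deep z) z ∧ kap deep z < kap deep x ∧
    Odd (∑ i, (cen o deep z i - cen o deep x i))

open scoped Classical in
/-- The margin of `x`. -/
noncomputable def mar (o : ℕ → Site d → Site d) (deep : ℕ → Site d → Prop) (x : Site d) : ℕ :=
  if Flip o deep 1 x then 2 else if Flip o deep 2 x then 1 else 0

/-- The parity of `x` relative to its centre. -/
noncomputable def bit (o : ℕ → Site d → Site d) (deep : ℕ → Site d → Prop) (x : Site d) : ℕ :=
  if Even (∑ i, (x i - cen o deep x i)) then 0 else 1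

/-- The colour of `x`. -/
noncomputable def col (o : ℕ → Site d → Site d) (deep : ℕ → Site d → Prop) (x : Site d) :
    Fin 3 := Fin.ofNat 3 (mar o deep x + (mar o deep x + bit o deep x) % 2)

section Proper

variable {o : ℕ → Site d → Site d} {deep : ℕ → Site d → Prop}

lemma deep_kap {x : Site d} (h : ∃ k, deep k x) : deep (kap deep x) x :=
  Nat.sInf_mem (s := {k | deep k x}) h

lemma not_deep_of_lt_kap {x : Site d} {k : ℕ} (h : k < kap deep x) : ¬ deep k x :=
  Nat.notMem_of_lt_sInf (s := {k | deep k x}) h

lemma kap_le {x : Site d} {k : ℕ} (h : deep k x) : kap deep x ≤ k :=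
  Nat.sInf_le (s := {k | deep k x}) h

lemma o_eq_of_le (h3 : ∀ k x y, o k x = o k y → o (k + 1) x = o (k + 1) y) {k l : ℕ}
    (hkl : k ≤ l) {x y : Site d} (h : o k x = o k y) : o l x = o l y := by
  induction l, hkl using Nat.le_induction with
  | base => exact h
  | succ l _ ih => exact h3 l x y ih

lemma bit_eq_or (x : Site d) : bit o deep x = 0 ∨ bit o deep x = 1 := by
  unfold bit; split_ifs <;> simp

lemma bit_ne {x y : Site d} (h : Odd (∑ i, ((x i - cen o deep x i) - (y i - cen o deep y i)))) :
    bit o deep x ≠ bit o deep y := by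
  rw [sum_sub_distrib, Int.odd_sub] at h
  unfold bit
  by_cases h1 : Even (∑ i, (x i - cen o deep x i)) <;>
    by_cases h2 : Even (∑ i, (y i - cen o deep y i))
  · rw [← Int.not_even_iff_odd] at h; tauto
  · rw [if_pos h1, if_neg h2]; decide
  · rw [if_neg h1, if_pos h2]; decide
  · rw [← Int.not_even_iff_odd] at h; tauto

lemma bit_eq {x y : Site d} (h : Even (∑ i, ((x i - cen o deep x i) - (y i - cen o deep y i)))) :
    bit o deep x = bit o deep y := by
  rw [sum_sub_distrib, Int.even_sub] at h
  unfold bit
  by_cases h1 : Even (∑ i, (x i - cen o deep x i)) <;>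
    by_cases h2 : Even (∑ i, (y i - cen o deep y i))
  · rw [if_pos h1, if_pos h2]
  · tauto
  · tauto
  · rw [if_neg h1, if_neg h2]

/-- A settled neighbour of a later site has the centre of every settled site nearby. -/
lemma cen_eq_of_near (h1 : ∀ k x y, deep k x → Near 4 x y → o (k + 1) y = o (k + 1) x)
    (h2 : ∀ k x y, o k x = o k y → (deep k x ↔ deep k y))
    (h3 : ∀ k x y, o k x = o k y → o (k + 1) x = o (k + 1) y)
    {x y z : Site d} (hxy : Near 1 x y) (hy : deep (kap deep y) y)
    (hlt : kap deep y < kap deep x) (hxz : Near 2 x z) (hz : deep (kap deep z) z)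
    (hzlt : kap deep z < kap deep x) : cen o deep z = cen o deep y := by
  have hyz : Near 3 y z := (hxy.symm.trans hxz).mono (by norm_num)
  rcases lt_trichotomy (kap deep z) (kap deep y) with h | h | h
  · exfalso
    have e1 := h1 _ z x hz (hxz.symm.mono (by norm_num))
    have e2 := h1 _ z y hz (hyz.symm.mono (by norm_num))
    have e3 : o (kap deep y) x = o (kap deep y) y :=
      o_eq_of_le h3 (Nat.succ_le_of_lt h) (e1.trans e2.symm)
    exact not_deep_of_lt_kap hlt ((h2 _ _ _ e3).2 hy)
  · unfold cen
    rw [h]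
    exact h1 _ y z hy (hyz.mono (by norm_num))
  · exfalso
    have e1 := h1 _ y x hy (hxy.symm.mono (by norm_num))
    have e2 := h1 _ y z hy (hyz.mono (by norm_num))
    have e3 : o (kap deep z) x = o (kap deep z) z :=
      o_eq_of_le h3 (Nat.succ_le_of_lt h) (e1.trans e2.symm)
    exact not_deep_of_lt_kap hzlt ((h2 _ _ _ e3).2 hz)

/-- A settled neighbour of a later site has no earlier settled sites nearby. -/
lemma no_flip_of_near (h1 : ∀ k x y, deep k x → Near 4 x y → o (k + 1) y = o (k + 1) x)
    (h2 : ∀ k x y, o k x = o k y → (deep k x ↔ deep k y))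
    (h3 : ∀ k x y, o k x = o k y → o (k + 1) x = o (k + 1) y)
    {x y : Site d} (hxy : Near 1 x y) (hy : deep (kap deep y) y)
    (hlt : kap deep y < kap deep x) {r : ℤ} (hr : r ≤ 2) : ¬ Flip o deep r y := by
  rintro ⟨z, hyz, hz, hzy, -⟩
  have hyz2 : Near 2 y z := hyz.mono hr
  have hxz : Near 3 x z := (hxy.trans hyz2).mono (by norm_num)
  have e1 := h1 _ z x hz (hxz.symm.mono (by norm_num))
  have e2 := h1 _ z y hz (hyz2.symm.mono (by norm_num))
  have e3 : o (kap deep y) x = o (kap deep y) y :=
    o_eq_of_le h3 (Nat.succ_le_of_lt hzy) (e1.trans e2.symm)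
  exact not_deep_of_lt_kap hlt ((h2 _ _ _ e3).2 hy)

lemma col_ne_of_lt (h1 : ∀ k x y, deep k x → Near 4 x y → o (k + 1) y = o (k + 1) x)
    (h2 : ∀ k x y, o k x = o k y → (deep k x ↔ deep k y))
    (h3 : ∀ k x y, o k x = o k y → o (k + 1) x = o (k + 1) y)
    (h4 : ∀ x, ∃ k, deep k x)
    {x y : Site d} (hxy : Adj x y) (hlt : kap deep y < kap deep x) :
    col o deep x ≠ col o deep y := by
  have hn := near_of_adj hxy
  have hodd := odd_of_adj hxy
  have hy := deep_kap (h4 y)
  have hmy : mar o deep y = 0 := by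
    unfold mar
    rw [if_neg (no_flip_of_near h1 h2 h3 hn hy hlt (by norm_num)),
      if_neg (no_flip_of_near h1 h2 h3 hn hy hlt (by norm_num))]
  have key : ∀ z, Near 2 x z → deep (kap deep z) z → kap deep z < kap deep x →
      cen o deep z = cen o deep y := fun z hxz hz hzlt =>
    cen_eq_of_near h1 h2 h3 hn hy hlt hxz hz hzlt
  by_cases hpar : Odd (∑ i, (cen o deep y i - cen o deep x i))
  · have hmx : mar o deep x = 2 := by
      unfold mar
      rw [if_pos ⟨y, hn, hy, hlt, hpar⟩]
    have hb : bit o deep x = bit o deep y := by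
      apply bit_eq
      have : ∀ i ∈ (univ : Finset (Fin d)), x i - cen o deep x i - (y i - cen o deep y i) =
          (x i - y i) + (cen o deep y i - cen o deep x i) := fun i _ => by ring
      rw [sum_congr rfl this, sum_add_distrib]
      exact hodd.add_odd hpar
    unfold col
    rw [hmx, hmy, hb]
    rcases bit_eq_or (o := o) (deep := deep) y with h | h <;> rw [h] <;> decide
  · have hno : ∀ r : ℤ, r ≤ 2 → ¬ Flip o deep r x := by
      rintro r hr ⟨z, hxz, hz, hzlt, hodd'⟩
      rw [key z (hxz.mono hr) hz hzlt] at hodd'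
      exact hpar hodd'
    have hmx : mar o deep x = 0 := by
      unfold mar
      rw [if_neg (hno 1 (by norm_num)), if_neg (hno 2 (by norm_num))]
    have hb : bit o deep x ≠ bit o deep y := by
      apply bit_ne
      have : ∀ i ∈ (univ : Finset (Fin d)), x i - cen o deep x i - (y i - cen o deep y i) =
          (x i - y i) + (cen o deep y i - cen o deep x i) := fun i _ => by ring
      rw [sum_congr rfl this, sum_add_distrib]
      exact hodd.add_even (Int.not_odd_iff_even.1 hpar)
    unfold col
    rw [hmx, hmy]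
    rcases bit_eq_or (o := o) (deep := deep) y with h | h <;>
      rcases bit_eq_or (o := o) (deep := deep) x with h' | h' <;>
      rw [h, h'] at hb ⊢ <;> revert hb <;> decide

lemma mar_lt (x : Site d) : mar o deep x < 3 := by
  unfold mar; split_ifs <;> norm_num

lemma bit_lt (x : Site d) : bit o deep x < 2 := by
  unfold bit; split_ifs <;> norm_num

lemma col_aux : ∀ a < 3, ∀ b < 3, ∀ u < 2, ∀ v < 2, a ≤ b + 1 → b ≤ a + 1 → u ≠ v →
    Fin.ofNat 3 (a + (a + u) % 2) ≠ Fin.ofNat 3 (b + (b + v) % 2) := by
  intro a ha b hb u hu v hv h1 h2 h3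
  interval_cases u <;> interval_cases v <;> first
    | (exfalso; exact h3 rfl)
    | (interval_cases a <;> interval_cases b <;> first
      | (exfalso; omega)
      | decide)

lemma col_ne_of_eq (h1 : ∀ k x y, deep k x → Near 4 x y → o (k + 1) y = o (k + 1) x)
    (h4 : ∀ x, ∃ k, deep k x)
    {x y : Site d} (hxy : Adj x y) (heq : kap deep y = kap deep x) :
    col o deep x ≠ col o deep y := by
  have hn := near_of_adj hxy
  have hodd := odd_of_adj hxy
  have hx := deep_kap (h4 x)
  have hc : cen o deep y = cen o deep x := by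
    unfold cen
    rw [heq]
    exact h1 _ x y hx (hn.mono (by norm_num))
  have hb : bit o deep x ≠ bit o deep y := by
    apply bit_ne
    have : ∀ i ∈ (univ : Finset (Fin d)), x i - cen o deep x i - (y i - cen o deep y i) =
        (x i - y i) := fun i _ => by rw [hc]; ring
    rw [sum_congr rfl this]
    exact hodd
  have hfl : ∀ u v : Site d, Near 1 u v → kap deep v = kap deep u → cen o deep v = cen o deep u →
      Flip o deep 1 u → Flip o deep 2 v := by
    rintro u v huv hk hcc ⟨z, huz, hz, hzlt, ho⟩
    exact ⟨z, (huv.symm.trans huz).mono (by norm_num), hz, by rw [hk]; exact hzlt,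
      by rw [hcc]; exact ho⟩
  have hxy1 := hfl x y hn heq hc
  have hyx1 := hfl y x hn.symm heq.symm hc.symm
  have m1 : mar o deep x ≤ mar o deep y + 1 := by
    unfold mar
    by_cases a1 : Flip o deep 1 x
    · rw [if_pos a1]
      have := hxy1 a1
      by_cases a3 : Flip o deep 1 y
      · rw [if_pos a3]; norm_num
      · rw [if_neg a3, if_pos this]
    · rw [if_neg a1]
      split_ifs <;> omega
  have m2 : mar o deep y ≤ mar o deep x + 1 := by
    unfold mar
    by_cases a1 : Flip o deep 1 y
    · rw [if_pos a1]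
      have := hyx1 a1
      by_cases a3 : Flip o deep 1 x
      · rw [if_pos a3]; norm_num
      · rw [if_neg a3, if_pos this]
    · rw [if_neg a1]
      split_ifs <;> omega
  exact col_aux _ (mar_lt x) _ (mar_lt y) _ (bit_lt x) _ (bit_lt y) m1 m2 hb

/-- **Properness** of the colouring. -/
theorem col_proper (h1 : ∀ k x y, deep k x → Near 4 x y → o (k + 1) y = o (k + 1) x)
    (h2 : ∀ k x y, o k x = o k y → (deep k x ↔ deep k y))
    (h3 : ∀ k x y, o k x = o k y → o (k + 1) x = o (k + 1) y)
    (h4 : ∀ x, ∃ k, deep k x)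
    {x y : Site d} (hxy : Adj x y) : col o deep x ≠ col o deep y := by
  rcases lt_trichotomy (kap deep y) (kap deep x) with h | h | h
  · exact col_ne_of_lt h1 h2 h3 h4 hxy h
  · exact col_ne_of_eq h1 h4 hxy h
  · have hyx : Adj y x := by
      unfold Adj l1 at *
      rw [← hxy]
      refine sum_congr rfl fun i _ => ?_
      simp only [Pi.sub_apply]
      omega
    exact (col_ne_of_lt h1 h2 h3 h4 hyx h).symm

end Proper

end Pool.Agent.FFIID
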