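import Mathlib
import Pool.Agent.Lib_helper92.FFIID.Defs

/-!
# Splicing two independent product configurations
-/

open MeasureTheory
open scoped ENNReal

namespace Pool.Agent.FFIID

section Splice

variable {ι : Type*} {X : Type*} [MeasurableSpace X]

open scoped Classical in
/-- Use `ω` on `S` and `ω'` off `S`. -/
noncomputable def splice (S : Set ι) (ω ω' : ι → X) : ι → X := S.piecewise ω ω'

omit [MeasurableSpace X] in
lemma splice_of_mem {S : Set ι} {ω ω' : ι → X} {i : ι} (h : i ∈ S) : splice S ω ω' i = ω i := by
  simp [splice, h]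

omit [MeasurableSpace X] in
lemma splice_of_notMem {S : Set ι} {ω ω' : ι → X} {i : ι} (h : i ∉ S) :
    splice S ω ω' i = ω' i := by
  simp [splice, h]

lemma measurable_splice_prod (S : Set ι) :
    Measurable (fun p : (ι → X) × (ι → X) => splice S p.1 p.2) := by
  refine measurable_pi_lambda _ fun i => ?_
  by_cases h : i ∈ S
  · simp only [splice_of_mem h]; fun_prop
  · simp only [splice_of_notMem h]; fun_prop

lemma measurable_splice_left (S : Set ι) (ω' : ι → X) :
    Measurable (fun ω : ι → X => splice S ω ω') :=
  (measurable_splice_prod S).comp (by fun_prop : Measurable fun ω : ι → X => (ω, ω'))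

variable (ν : Measure X) [IsProbabilityMeasure ν]

lemma map_splice (S : Set ι) :
    ((Measure.infinitePi fun _ : ι => ν).prod (Measure.infinitePi fun _ : ι => ν)).map
      (fun p => splice S p.1 p.2) = Measure.infinitePi fun _ : ι => ν := by
  classical
  refine Measure.eq_infinitePi _ fun s t ht => ?_
  have hm : MeasurableSet (Set.pi (s : Set ι) t) :=
    MeasurableSet.pi s.countable_toSet fun i _ => ht i
  rw [Measure.map_apply (measurable_splice_prod S) hm]
  have hpre : (fun p : (ι → X) × (ι → X) => splice S p.1 p.2) ⁻¹' (Set.pi (s : Set ι) t) =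
      (Set.pi ((s.filter (· ∈ S) : Finset ι) : Set ι) t) ×ˢ
        (Set.pi ((s.filter (· ∉ S) : Finset ι) : Set ι) t) := by
    ext ⟨a, b⟩
    simp only [Set.mem_preimage, Set.mem_pi, Finset.mem_coe, Set.mem_prod, Finset.mem_filter]
    constructor
    · intro h
      refine ⟨fun i hi => ?_, fun i hi => ?_⟩
      · have := h i hi.1
        rwa [splice_of_mem hi.2] at this
      · have := h i hi.1
        rwa [splice_of_notMem hi.2] at this
    · rintro ⟨h1, h2⟩ i hi
      by_cases hS : i ∈ S
      · rw [splice_of_mem hS]; exact h1 i ⟨hi, hS⟩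
      · rw [splice_of_notMem hS]; exact h2 i ⟨hi, hS⟩
  rw [hpre, Measure.prod_prod, Measure.infinitePi_pi _ (fun i _ => ht i),
    Measure.infinitePi_pi _ (fun i _ => ht i), Finset.prod_filter_mul_prod_filter_not]

/-- Fubini selection: the labels off `S` can be frozen without increasing the measure of a
bad event. -/
lemma exists_splice_le (S : Set ι) {B : Set (ι → X)} (hB : MeasurableSet B) :
    ∃ ω' : ι → X, (Measure.infinitePi fun _ : ι => ν) {ω | splice S ω ω' ∈ B} ≤
      (Measure.infinitePi fun _ : ι => ν) B := by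
  set μ := Measure.infinitePi fun _ : ι => ν with hμ
  have h1 : μ B = ∫⁻ ω', μ {ω | splice S ω ω' ∈ B} ∂μ := by
    conv_lhs => rw [hμ, ← map_splice ν S]
    rw [Measure.map_apply (measurable_splice_prod S) hB,
      Measure.prod_apply_symm (measurable_splice_prod S hB)]
    rfl
  have hmeas : Measurable fun ω' => μ {ω | splice S ω ω' ∈ B} :=
    measurable_measure_prodMk_right (measurable_splice_prod S hB)
  obtain ⟨ω', hω'⟩ := exists_le_lintegral (μ := μ) hmeas.aemeasurable
  exact ⟨ω', hω'.trans h1.symm.le⟩

/-- Events depending on disjoint sets of labels are independent. -/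
lemma measure_inter_of_dependsOn (S : Set ι) {A B : Set (ι → X)} (hA : MeasurableSet A)
    (hB : MeasurableSet B)
    (hAS : ∀ ω ω' : ι → X, (∀ i ∈ S, ω i = ω' i) → (ω ∈ A ↔ ω' ∈ A))
    (hBS : ∀ ω ω' : ι → X, (∀ i ∉ S, ω i = ω' i) → (ω ∈ B ↔ ω' ∈ B)) :
    (Measure.infinitePi fun _ : ι => ν) (A ∩ B) =
      (Measure.infinitePi fun _ : ι => ν) A * (Measure.infinitePi fun _ : ι => ν) B := by
  set μ := Measure.infinitePi fun _ : ι => ν with hμ
  conv_lhs => rw [hμ, ← map_splice ν S]
  rw [Measure.map_apply (measurable_splice_prod S) (hA.inter hB)]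
  have : (fun p : (ι → X) × (ι → X) => splice S p.1 p.2) ⁻¹' (A ∩ B) = A ×ˢ B := by
    ext ⟨a, b⟩
    simp only [Set.mem_preimage, Set.mem_inter_iff, Set.mem_prod]
    rw [hAS (splice S a b) a (fun i hi => splice_of_mem hi),
      hBS (splice S a b) b (fun i hi => splice_of_notMem hi)]
  rw [this, Measure.prod_prod]

/-- Reindexing invariance. -/
lemma measurePreserving_reindex (e : ι ≃ ι) :
    MeasurePreserving (fun (ω : ι → X) i => ω (e i)) (Measure.infinitePi fun _ : ι => ν)
      (Measure.infinitePi fun _ : ι => ν) := by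
  have h := Measure.infinitePi_map_piCongrLeft (fun _ : ι => ν) e.symm
  refine ⟨by fun_prop, ?_⟩
  convert h using 2
  ext ω i
  obtain ⟨j, rfl⟩ := e.symm.surjective i
  simp [MeasurableEquiv.piCongrLeft, Equiv.piCongrLeft_apply]

end Splice

section Shift

variable {d : ℕ} {E : Type*} [MeasurableSpace E] (ν : Measure E) [IsProbabilityMeasure ν]

instance : IsProbabilityMeasure (iid d ν) := by unfold iid; infer_instance

lemma measurePreserving_shift (v : Site d) :
    MeasurePreserving (shift v : (Site d → E) → Site d → E) (iid d ν) (iid d ν) :=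
  measurePreserving_reindex ν (Equiv.addRight v)

lemma shift_shift {A : Type*} (u v : Site d) (y : Site d → A) :
    shift u (shift v y) = shift (u + v) y := by
  funext w; simp [shift, add_assoc]

lemma shift_zero' {A : Type*} (y : Site d → A) : shift 0 y = y := by
  funext w; simp [shift]

end Shift

end Pool.Agent.FFIID
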