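import Mathlib
import Pool.Agent.Lib_helper92.FFIID.Det
import Pool.Agent.Lib_helper92.FFIID.Splice

/-!
# Random ball carving on `ℤ^d`
-/

open MeasureTheory Finset
open scoped ENNReal unitInterval

namespace Pool.Agent.FFIID

variable {d : ℕ}

/-- Index set of the labels: a site, a level, and a bit which selects one of two labels. -/
abbrev Idx (d : ℕ) : Type := Site d × ℕ × Bool

/-- Label configurations. -/
abbrev Cfg (d : ℕ) : Type := Idx d → I

/-- sup-distance -/
def supd (x y : Site d) : ℕ := univ.sup fun i => (x i - y i).natAbs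

lemma supd_le_iff {x y : Site d} {n : ℕ} : supd x y ≤ n ↔ Near n x y := by
  unfold supd Near
  rw [Finset.sup_le_iff]
  constructor
  · intro h i
    have := h i (mem_univ i)
    rw [Int.abs_eq_natAbs]
    exact_mod_cast this
  · intro h i _
    have := h i
    rw [Int.abs_eq_natAbs] at this
    exact_mod_cast this

lemma supd_self (x : Site d) : supd x x = 0 := by
  have : supd x x ≤ 0 := supd_le_iff.2 (Near.refl (by simp) x)
  omega

lemma near_supd (x y : Site d) : Near (supd x y) x y := supd_le_iff.1 le_rfl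

lemma supd_comm (x y : Site d) : supd x y = supd y x :=
  le_antisymm (supd_le_iff.2 (near_supd y x).symm) (supd_le_iff.2 (near_supd x y).symm)

lemma supd_triangle (x y z : Site d) : supd x z ≤ supd x y + supd y z := by
  rw [supd_le_iff]
  push_cast
  exact (near_supd x y).trans (near_supd y z)

lemma supd_add (x y v : Site d) : supd (x + v) (y + v) = supd x y := by
  unfold supd; simp

/-- Candidate centres for `b` (level `k`, scale `s`). -/
def Cand (s k : ℕ) (ω : Cfg d) (b : Site d) : Set (Site d) :=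
  {y | (supd y b : ℝ) ≤ s * (1 + (ω (y, k, true) : ℝ))}

/-- `y` is the candidate of strictly smallest priority. -/
def IsMin (s k : ℕ) (ω : Cfg d) (b y : Site d) : Prop :=
  y ∈ Cand s k ω b ∧ ∀ z ∈ Cand s k ω b, z ≠ y → ω (y, k, false) < ω (z, k, false)

lemma IsMin.unique {s k : ℕ} {ω : Cfg d} {b y z : Site d} (hy : IsMin s k ω b y)
    (hz : IsMin s k ω b z) : y = z := by
  by_contra hne
  exact lt_asymm (hy.2 z hz.1 (Ne.symm hne)) (hz.2 y hy.1 hne)

open scoped Classical in
/-- The centre of the cluster of `b`. -/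
noncomputable def phi (s k : ℕ) (ω : Cfg d) (b : Site d) : Site d :=
  if h : ∃ y, IsMin s k ω b y then h.choose else b

lemma phi_eq {s k : ℕ} {ω : Cfg d} {b y : Site d} (h : IsMin s k ω b y) : phi s k ω b = y := by
  have hex : ∃ y, IsMin s k ω b y := ⟨y, h⟩
  unfold phi
  rw [dif_pos hex]
  exact hex.choose_spec.unique h

lemma phi_eq_self {s k : ℕ} {ω : Cfg d} {b : Site d} (h : ¬ ∃ y, IsMin s k ω b y) :
    phi s k ω b = b := by
  unfold phi
  rw [dif_neg h]

lemma near_of_mem_cand {s k : ℕ} {ω : Cfg d} {b y : Site d} (h : y ∈ Cand s k ω b) :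
    supd y b ≤ 2 * s := by
  unfold Cand at h
  rw [Set.mem_ofPred_eq] at h
  have h1 : (ω (y, k, true) : ℝ) ≤ 1 := (ω (y, k, true)).2.2
  have h2 : (supd y b : ℝ) ≤ ((2 * s : ℕ) : ℝ) := by
    refine h.trans ?_
    push_cast
    have : (0 : ℝ) ≤ s := by positivity
    nlinarith
  exact_mod_cast h2

lemma mem_cand_of_near {s k : ℕ} {ω : Cfg d} {b y : Site d} (h : supd y b ≤ s) :
    y ∈ Cand s k ω b := by
  unfold Cand
  rw [Set.mem_ofPred_eq]
  have h1 : 0 ≤ (ω (y, k, true) : ℝ) := (ω (y, k, true)).2.1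
  have h2 : (supd y b : ℝ) ≤ s := by exact_mod_cast h
  have : (0 : ℝ) ≤ s := by positivity
  nlinarith

lemma phi_near (s k : ℕ) (ω : Cfg d) (b : Site d) : supd (phi s k ω b) b ≤ 2 * s := by
  by_cases h : ∃ y, IsMin s k ω b y
  · obtain ⟨y, hy⟩ := h
    rw [phi_eq hy]
    exact near_of_mem_cand hy.1
  · rw [phi_eq_self h, supd_self]
    omega

/-- labels of level `k` agree within distance `r` of `b` -/
def Agree (r k : ℕ) (b : Site d) (ω ω' : Cfg d) : Prop :=
  ∀ y : Site d, supd y b ≤ r → ∀ t : Bool, ω (y, k, t) = ω' (y, k, t)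

lemma Agree.symm {r k : ℕ} {b : Site d} {ω ω' : Cfg d} (h : Agree r k b ω ω') :
    Agree r k b ω' ω := fun y hy t => (h y hy t).symm

lemma cand_congr {s k : ℕ} {b : Site d} {ω ω' : Cfg d} (h : Agree (2 * s) k b ω ω') {y : Site d}
    (hy : y ∈ Cand s k ω b) : y ∈ Cand s k ω' b := by
  have := h y (near_of_mem_cand hy) true
  unfold Cand at *
  rw [Set.mem_ofPred_eq] at *
  rw [← this]; exact hy

lemma isMin_congr {s k : ℕ} {b : Site d} {ω ω' : Cfg d} (h : Agree (2 * s) k b ω ω') {y : Site d}
    (hy : IsMin s k ω b y) : IsMin s k ω' b y := by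
  refine ⟨cand_congr h hy.1, fun z hz hne => ?_⟩
  have hz' := cand_congr h.symm hz
  rw [← h y (near_of_mem_cand hy.1) false, ← h z (near_of_mem_cand hz') false]
  exact hy.2 z hz' hne

lemma phi_congr {s k : ℕ} {b : Site d} {ω ω' : Cfg d} (h : Agree (2 * s) k b ω ω') :
    phi s k ω b = phi s k ω' b := by
  by_cases hex : ∃ y, IsMin s k ω b y
  · obtain ⟨y, hy⟩ := hex
    rw [phi_eq hy, phi_eq (isMin_congr h hy)]
  · have hex' : ¬ ∃ y, IsMin s k ω' b y := fun ⟨y, hy⟩ => hex ⟨y, isMin_congr h.symm hy⟩
    rw [phi_eq_self hex, phi_eq_self hex']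

/-- Translation of a configuration. -/
def cshift (v : Site d) (ω : Cfg d) : Cfg d := fun p => ω (p.1 + v, p.2)

lemma cand_cshift {s k : ℕ} {v : Site d} {ω : Cfg d} {b y : Site d} :
    y ∈ Cand s k (cshift v ω) b ↔ y + v ∈ Cand s k ω (b + v) := by
  unfold Cand cshift
  rw [Set.mem_ofPred_eq, Set.mem_ofPred_eq, supd_add]

lemma isMin_cshift {s k : ℕ} {v : Site d} {ω : Cfg d} {b y : Site d} :
    IsMin s k (cshift v ω) b y ↔ IsMin s k ω (b + v) (y + v) := by
  unfold IsMin
  rw [cand_cshift]
  refine and_congr_right fun _ => ?_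
  constructor
  · intro h z hz hne
    have := h (z - v) (cand_cshift.2 (by simpa using hz)) (fun hc => hne (by rw [← hc]; simp))
    simpa [cshift] using this
  · intro h z hz hne
    have := h (z + v) (cand_cshift.1 hz) (fun hc => hne (add_right_cancel hc))
    simpa [cshift] using this

lemma phi_cshift (s k : ℕ) (v : Site d) (ω : Cfg d) (b : Site d) :
    phi s k (cshift v ω) b = phi s k ω (b + v) - v := by
  by_cases hex : ∃ y, IsMin s k (cshift v ω) b y
  · obtain ⟨y, hy⟩ := hex
    rw [phi_eq hy, phi_eq (isMin_cshift.1 hy)]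
    simp
  · have hex' : ¬ ∃ y, IsMin s k ω (b + v) y := fun ⟨y, hy⟩ =>
      hex ⟨y - v, isMin_cshift.2 (by simpa using hy)⟩
    rw [phi_eq_self hex, phi_eq_self hex']
    simp

lemma measurableSet_cand (s k : ℕ) (b y : Site d) :
    MeasurableSet {ω : Cfg d | y ∈ Cand s k ω b} := by
  have h0 : Measurable fun ω : Cfg d => (ω (y, k, true) : ℝ) :=
    measurable_subtype_coe.comp (measurable_pi_apply _)
  have h1 : Measurable fun ω : Cfg d => (s : ℝ) * (1 + (ω (y, k, true) : ℝ)) := by fun_prop
  exact measurableSet_le measurable_const h1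

lemma measurableSet_isMin (s k : ℕ) (b y : Site d) :
    MeasurableSet {ω : Cfg d | IsMin s k ω b y} := by
  have : {ω : Cfg d | IsMin s k ω b y} = {ω : Cfg d | y ∈ Cand s k ω b} ∩
      ⋂ z : Site d, ({ω : Cfg d | z ∈ Cand s k ω b}ᶜ ∪ ({_ω : Cfg d | z = y} ∪
        {ω : Cfg d | ω (y, k, false) < ω (z, k, false)})) := by
    ext ω
    simp only [IsMin, Set.mem_ofPred_eq, Set.mem_inter_iff, Set.mem_iInter, Set.mem_union,
      Set.mem_compl_iff]
    refine and_congr_right fun _ => forall_congr' fun z => ?_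
    tauto
  rw [this]
  refine (measurableSet_cand s k b y).inter (MeasurableSet.iInter fun z => ?_)
  refine (measurableSet_cand s k b z).compl.union (MeasurableSet.union (MeasurableSet.const _) ?_)
  exact measurableSet_lt (by fun_prop) (by fun_prop)

lemma measurable_phi (s k : ℕ) (b : Site d) : Measurable fun ω : Cfg d => phi s k ω b := by
  refine measurable_to_countable' fun y => ?_
  by_cases hyb : y = b
  · have : (fun ω : Cfg d => phi s k ω b) ⁻¹' {y} = {ω : Cfg d | IsMin s k ω b y} ∪
        ⋂ z : Site d, {ω : Cfg d | IsMin s k ω b z}ᶜ := by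
      ext ω
      simp only [Set.mem_preimage, Set.mem_singleton_iff, Set.mem_union, Set.mem_ofPred_eq,
        Set.mem_iInter, Set.mem_compl_iff]
      constructor
      · intro h
        by_cases hex : ∃ z, IsMin s k ω b z
        · obtain ⟨z, hz⟩ := hex
          left
          rw [phi_eq hz] at h
          rw [← h]; exact hz
        · right
          intro z hz
          exact hex ⟨z, hz⟩
      · rintro (h | h)
        · exact phi_eq h
        · rw [phi_eq_self (fun ⟨z, hz⟩ => h z hz), hyb]
    rw [this]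
    exact (measurableSet_isMin s k b y).union
      (MeasurableSet.iInter fun z => (measurableSet_isMin s k b z).compl)
  · have : (fun ω : Cfg d => phi s k ω b) ⁻¹' {y} = {ω : Cfg d | IsMin s k ω b y} := by
      ext ω
      simp only [Set.mem_preimage, Set.mem_singleton_iff, Set.mem_ofPred_eq]
      constructor
      · intro h
        by_cases hex : ∃ z, IsMin s k ω b z
        · obtain ⟨z, hz⟩ := hex
          rw [phi_eq hz] at h
          rw [← h]; exact hz
        · rw [phi_eq_self hex] at h
          exact absurd h.symm hyb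
      · exact phi_eq
    rw [this]
    exact measurableSet_isMin s k b y

end Pool.Agent.FFIID
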