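import Mathlib
import Pool.Agent.Lib_helper92.FFIID.Splice

/-!
# Height increments of 3-colourings along lattice lines
-/

open MeasureTheory Finset
open scoped ENNReal

namespace Pool.Agent.FFIID

/-- The height increment between two colours. -/
def inc (a b : Fin 3) : ℤ := if b = a + 1 then 1 else -1

lemma inc_curl : ∀ a b c e : Fin 3, a ≠ b → b ≠ c → a ≠ e → e ≠ c →
    inc a b + inc b c = inc a e + inc e c := by
  decide

lemma inc_eq_or (a b : Fin 3) : inc a b = 1 ∨ inc a b = -1 := by
  unfold inc; split_ifs <;> simp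

lemma abs_inc (a b : Fin 3) : |inc a b| = 1 := by
  rcases inc_eq_or a b with h | h <;> simp [h]

lemma inc_odd (a b : Fin 3) : Odd (inc a b) := by
  rcases inc_eq_or a b with h | h <;> rw [h] <;> decide

lemma sum_inc_abs_le (n : ℕ) (f g : ℕ → Fin 3) :
    |∑ k ∈ range n, inc (f k) (g k)| ≤ n := by
  refine (Finset.abs_sum_le_sum_abs _ _).trans ?_
  simp [abs_inc]

lemma sum_inc_even_sub (n : ℕ) (f g : ℕ → Fin 3) :
    Even (∑ k ∈ range n, inc (f k) (g k) - n) := by
  induction n with
  | zero => simp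
  | succ n ih =>
    rw [sum_range_succ]
    have h := inc_odd (f n) (g n)
    have : ∑ k ∈ range n, inc (f k) (g k) + inc (f n) (g n) - ((n + 1 : ℕ) : ℤ) =
        (∑ k ∈ range n, inc (f k) (g k) - n) + (inc (f n) (g n) - 1) := by push_cast; ring
    rw [this]
    exact ih.add (by rcases inc_eq_or (f n) (g n) with h | h <;> rw [h] <;> decide)

/-- Path independence of the height around rectangles. -/
lemma curl_rect (x : ℕ → ℕ → Fin 3) (hx : ∀ i j, x i j ≠ x (i + 1) j)
    (hy : ∀ i j, x i j ≠ x i (j + 1)) (a b : ℕ) :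
    ∑ k ∈ range a, inc (x k 0) (x (k + 1) 0) + ∑ k ∈ range b, inc (x a k) (x a (k + 1)) =
      ∑ k ∈ range b, inc (x 0 k) (x 0 (k + 1)) + ∑ k ∈ range a, inc (x k b) (x (k + 1) b) := by
  have strip : ∀ b a : ℕ, ∑ k ∈ range a, inc (x k b) (x (k + 1) b) + inc (x a b) (x a (b + 1)) =
      inc (x 0 b) (x 0 (b + 1)) + ∑ k ∈ range a, inc (x k (b + 1)) (x (k + 1) (b + 1)) := by
    intro b a
    induction a with
    | zero => simp
    | succ a ih =>
      rw [sum_range_succ, sum_range_succ]
      have h := inc_curl (x a b) (x (a + 1) b) (x (a + 1) (b + 1)) (x a (b + 1))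
        (hx a b) (hy (a + 1) b) (hy a b) (hx a (b + 1))
      linarith
  induction b with
  | zero => simp
  | succ b ih =>
    rw [sum_range_succ, sum_range_succ]
    have := strip b a
    linarith

/-- The lattice site with first two coordinates `i, j` and all others zero. -/
def pt {d : ℕ} (i j : ℤ) : Site d := fun a => if a.val = 0 then i else if a.val = 1 then j else 0

lemma pt_add {d : ℕ} (i j i' j' : ℤ) : (pt i j + pt i' j' : Site d) = pt (i + i') (j + j') := by
  funext a
  simp only [pt, Pi.add_apply]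
  split_ifs <;> simp

lemma pt_zero {d : ℕ} : (pt 0 0 : Site d) = 0 := by
  funext a; simp [pt]

lemma adj_pt_right {d : ℕ} (hd : 2 ≤ d) (i j : ℤ) : Adj (pt i j : Site d) (pt (i + 1) j) := by
  unfold Adj l1
  rw [Finset.sum_eq_single (⟨0, by omega⟩ : Fin d)]
  · simp [pt]
  · intro b _ hb
    have : b.val ≠ 0 := fun h => hb (Fin.ext h)
    simp [pt, this]
  · simp

lemma adj_pt_up {d : ℕ} (hd : 2 ≤ d) (i j : ℤ) : Adj (pt i j : Site d) (pt i (j + 1)) := by
  unfold Adj l1
  rw [Finset.sum_eq_single (⟨1, by omega⟩ : Fin d)]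
  · simp [pt]
  · intro b _ hb
    have : b.val ≠ 1 := fun h => hb (Fin.ext h)
    by_cases h0 : b.val = 0 <;> simp [pt, this, h0]
  · simp

section Sums

variable {d : ℕ} {E : Type*}

/-- Horizontal height difference. -/
def hs (g : (Site d → E) → Fin 3) (y : Site d → E) (a j : ℕ) : ℤ :=
  ∑ k ∈ range a, inc (g (shift (pt k j) y)) (g (shift (pt (k + 1) j) y))

/-- Vertical height difference. -/
def vs (g : (Site d → E) → Fin 3) (y : Site d → E) (i b : ℕ) : ℤ :=
  ∑ k ∈ range b, inc (g (shift (pt i k) y)) (g (shift (pt i (k + 1)) y))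

lemma hs_abs_le (g : (Site d → E) → Fin 3) (y : Site d → E) (a j : ℕ) : |hs g y a j| ≤ a :=
  sum_inc_abs_le _ _ _

lemma vs_abs_le (g : (Site d → E) → Fin 3) (y : Site d → E) (i b : ℕ) : |vs g y i b| ≤ b :=
  sum_inc_abs_le _ _ _

lemma vs_even_sub (g : (Site d → E) → Fin 3) (y : Site d → E) (i b : ℕ) :
    Even (vs g y i b - b) := sum_inc_even_sub _ _ _

lemma hs_add (g : (Site d → E) → Fin 3) (y : Site d → E) (a b : ℕ) :
    hs g y (a + b) 0 = hs g y a 0 + hs g (shift (pt a 0) y) b 0 := by
  unfold hs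
  rw [sum_range_add]
  congr 1
  refine sum_congr rfl fun k _ => ?_
  have e1 : ((a + k : ℕ) : ℤ) = (k : ℤ) + a := by push_cast; ring
  have e2 : ((a + k : ℕ) : ℤ) + 1 = ((k : ℤ) + 1) + a := by push_cast; ring
  rw [shift_shift, shift_shift, pt_add, pt_add, e2, e1]
  simp

lemma curl_eq (g : (Site d → E) → Fin 3) (y : Site d → E) (a b : ℕ)
    (h : ∀ i j : ℕ, g (shift (pt i j) y) ≠ g (shift (pt (i + 1) j) y) ∧
      g (shift (pt i j) y) ≠ g (shift (pt i (j + 1)) y)) :
    hs g y a 0 + vs g y a b = vs g y 0 b + hs g y a b := by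
  have := curl_rect (fun i j => g (shift (pt i j) y))
    (fun i j => by have := (h i j).1; push_cast; exact this)
    (fun i j => by have := (h i j).2; push_cast; exact this) a b
  simp only [hs, vs]
  push_cast at this ⊢
  exact this

variable [MeasurableSpace E]

lemma measurable_shift (v : Site d) : Measurable (shift v : (Site d → E) → Site d → E) := by
  unfold shift; fun_prop

lemma measurable_hs {g : (Site d → E) → Fin 3} (hg : Measurable g) (a j : ℕ) :
    Measurable fun y => hs g y a j := by
  unfold hs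
  refine Finset.measurable_sum _ fun k _ => ?_
  exact (Measurable.of_discrete (f := fun p : Fin 3 × Fin 3 => inc p.1 p.2)).comp
    ((hg.comp (measurable_shift _)).prodMk (hg.comp (measurable_shift _)))

lemma measurable_vs {g : (Site d → E) → Fin 3} (hg : Measurable g) (i b : ℕ) :
    Measurable fun y => vs g y i b := by
  unfold vs
  refine Finset.measurable_sum _ fun k _ => ?_
  exact (Measurable.of_discrete (f := fun p : Fin 3 × Fin 3 => inc p.1 p.2)).comp
    ((hg.comp (measurable_shift _)).prodMk (hg.comp (measurable_shift _)))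

end Sums

end Pool.Agent.FFIID
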