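import Mathlib
import Pool.Agent.Lib_helper92.FFIID.Carve

/-!
# The probability that a ball is cut by the random carving
-/

open MeasureTheory Finset
open scoped ENNReal unitInterval

namespace Pool.Agent.FFIID

section Abstract

variable {ι : Type*}

lemma tie_null {i j : ι} (h : i ≠ j) :
    (Measure.infinitePi fun _ : ι => (volume : Measure I)) {ω | ω i = ω j} = 0 := by
  have hm : MeasurableSet {p : I × I | p.1 = p.2} :=
    measurableSet_eq_fun measurable_fst measurable_snd
  have he : {ω : ι → I | ω i = ω j} = (fun ω : ι → I => (ω i, ω j)) ⁻¹' {p | p.1 = p.2} := rfl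
  rw [he, ← Measure.map_apply (by fun_prop) hm, Measure.infinitePi_map_eval_prod h,
    Measure.prod_apply hm]
  have : ∀ x : I, (volume : Measure I) (Prod.mk x ⁻¹' {p : I × I | p.1 = p.2}) = 0 := by
    intro x
    have : (Prod.mk x ⁻¹' {p : I × I | p.1 = p.2}) = {x} := by
      ext y; simp [eq_comm]
    rw [this]; exact measure_singleton x
  simp

lemma argmin_le {T : Finset ι} {i : ι} (hi : i ∈ T) :
    (Measure.infinitePi fun _ : ι => (volume : Measure I)) {ω | ∀ j ∈ T, j ≠ i → ω i < ω j} ≤
      (T.card : ℝ≥0∞)⁻¹ := by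
  classical
  set P := Measure.infinitePi fun _ : ι => (volume : Measure I) with hP
  set A : ι → Set (ι → I) := fun i => {ω | ∀ j ∈ T, j ≠ i → ω i < ω j} with hA
  have hmeas : ∀ i, MeasurableSet (A i) := by
    intro i
    have : A i = ⋂ j ∈ T, ({_ω : ι → I | j = i} ∪ {ω : ι → I | ω i < ω j}) := by
      ext ω
      simp only [hA, Set.mem_ofPred_eq, Set.mem_iInter, Set.mem_union]
      refine forall₂_congr fun j _ => ?_
      tauto
    rw [this]
    refine T.measurableSet_biInter fun j _ => ?_
    exact (MeasurableSet.const _).union (measurableSet_lt (by fun_prop) (by fun_prop))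
  have heq : ∀ i' ∈ T, P (A i') = P (A i) := by
    intro i' hi'
    have hmp := measurePreserving_reindex (volume : Measure I) (Equiv.swap i i')
    have hpre : (fun (ω : ι → I) l => ω (Equiv.swap i i' l)) ⁻¹' (A i) = A i' := by
      ext ω
      simp only [hA, Set.mem_preimage, Set.mem_ofPred_eq, Equiv.swap_apply_left]
      constructor
      · intro h j hj hne
        by_cases hji : j = i
        · by_cases hii : i' = i
          · exact absurd (hji.trans hii.symm) hne
          · have := h i' hi' hii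
            rw [Equiv.swap_apply_right] at this
            rw [hji]; exact this
        · have := h j hj hji
          rwa [Equiv.swap_apply_of_ne_of_ne hji hne] at this
      · intro h j hj hne
        by_cases hji : j = i'
        · rw [hji, Equiv.swap_apply_right]
          exact h i hi (fun hc => hne (hji.trans hc.symm))
        · rw [Equiv.swap_apply_of_ne_of_ne hne hji]
          exact h j hj hji
    rw [← hpre]
    exact hmp.measure_preimage (hmeas i).nullMeasurableSet
  have hdisj : (T : Set ι).PairwiseDisjoint A := by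
    intro i1 h1 i2 h2 hne
    rw [Function.onFun, Set.disjoint_left]
    intro ω hω1 hω2
    exact lt_asymm (hω1 i2 h2 (Ne.symm hne)) (hω2 i1 h1 hne)
  have hsum : (T.card : ℝ≥0∞) * P (A i) ≤ 1 := by
    calc (T.card : ℝ≥0∞) * P (A i) = ∑ i' ∈ T, P (A i') := by
          rw [sum_congr rfl heq]; simp
      _ = P (⋃ i' ∈ T, A i') := (measure_biUnion_finset hdisj fun i _ => hmeas i).symm
      _ ≤ 1 := prob_le_one
  rw [ENNReal.le_inv_iff_mul_le, mul_comm]
  exact hsum

lemma window_le (i : ι) (a l : ℝ) :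
    (Measure.infinitePi fun _ : ι => (volume : Measure I))
      {ω | a ≤ (ω i : ℝ) ∧ (ω i : ℝ) < a + l} ≤ ENNReal.ofReal l := by
  have hm : MeasurableSet {x : I | a ≤ (x : ℝ) ∧ (x : ℝ) < a + l} :=
    (measurableSet_Ico : MeasurableSet (Set.Ico a (a + l))).preimage measurable_subtype_coe
  have he : {ω : ι → I | a ≤ (ω i : ℝ) ∧ (ω i : ℝ) < a + l} =
      Function.eval i ⁻¹' {x : I | a ≤ (x : ℝ) ∧ (x : ℝ) < a + l} := rfl
  rw [he, (measurePreserving_eval_infinitePi (fun _ : ι => (volume : Measure I)) i).measure_preimage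
    hm.nullMeasurableSet, unitInterval.volume_apply]
  calc volume (Subtype.val '' {x : I | a ≤ (x : ℝ) ∧ (x : ℝ) < a + l}) ≤
      volume (Set.Ico a (a + l)) := by
        refine measure_mono ?_
        rintro _ ⟨x, hx, rfl⟩
        exact hx
    _ = ENNReal.ofReal l := by rw [Real.volume_Ico]; congr 1; ring

end Abstract

section Ball

variable {d : ℕ}

/-- The sup-ball as a finite set. -/
noncomputable def ballF (a : Site d) (n : ℕ) : Finset (Site d) :=
  Finset.Icc (fun i => a i - n) (fun i => a i + n)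

lemma mem_ballF {a y : Site d} {n : ℕ} : y ∈ ballF a n ↔ supd y a ≤ n := by
  unfold ballF
  rw [Finset.mem_Icc, supd_le_iff]
  unfold Near
  rw [Pi.le_def, Pi.le_def]
  constructor
  · rintro ⟨h1, h2⟩ i
    rw [abs_le]
    have := h1 i
    have := h2 i
    constructor <;> linarith
  · intro h
    refine ⟨fun i => ?_, fun i => ?_⟩
    · have := (abs_le.1 (h i)).1; linarith
    · have := (abs_le.1 (h i)).2; linarith

lemma card_ballF (a : Site d) (n : ℕ) : (ballF a n).card = (2 * n + 1) ^ d := by
  unfold ballF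
  rw [Pi.card_Icc]
  have : ∀ i ∈ (univ : Finset (Fin d)), (Finset.Icc (a i - n) (a i + n)).card = 2 * n + 1 := by
    intro i _
    rw [Int.card_Icc]
    omega
  rw [prod_congr rfl this]
  simp

end Ball

section Cut

variable {d : ℕ}

/-- The law of the labels. -/
noncomputable abbrev PP (d : ℕ) : Measure (Cfg d) :=
  Measure.infinitePi fun _ : Idx d => (volume : Measure I)

/-- The carving is not constant on the ball of radius `r` about `a`. -/
def NotConst (s k r : ℕ) (ω : Cfg d) (a : Site d) : Prop :=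
  ∃ b, supd b a ≤ r ∧ phi s k ω b ≠ phi s k ω a

/-- window event -/
def Win (s k r : ℕ) (a y : Site d) : Set (Cfg d) :=
  {ω | ((supd y a : ℝ) - r) / s - 1 ≤ (ω (y, k, true) : ℝ) ∧
    (ω (y, k, true) : ℝ) < ((supd y a : ℝ) - r) / s - 1 + 2 * r / s}

/-- argmin event -/
def Arg (s k : ℕ) (a y : Site d) : Set (Cfg d) :=
  {ω | ∀ z ∈ ballF a s, z ≠ y → ω (y, k, false) < ω (z, k, false)}

lemma notConst_imp {s k r : ℕ} (hs : 1 ≤ s) {ω : Cfg d} {a : Site d}
    (hties : ∀ y z : Site d, y ≠ z → ω (y, k, false) ≠ ω (z, k, false))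
    (h : NotConst s k r ω a) : ∃ y ∈ ballF a (2 * s + r), ω ∈ Win s k r a y ∩ Arg s k a y := by
  classical
  obtain ⟨b0, hb0, hne0⟩ := h
  set W : Finset (Site d) := (ballF a (2 * s + r)).filter
    (fun y => ∃ b, supd b a ≤ r ∧ y ∈ Cand s k ω b) with hW
  have hmemW : ∀ b y, supd b a ≤ r → y ∈ Cand s k ω b → y ∈ W := by
    intro b y hb hy
    rw [hW, mem_filter, mem_ballF]
    refine ⟨?_, b, hb, hy⟩
    have h1 := supd_triangle y b a
    have h2 := near_of_mem_cand hy
    omega
  have hself : ∀ b, b ∈ Cand s k ω b := fun b =>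
    mem_cand_of_near (by rw [supd_self]; omega)
  have haW : a ∈ W := hmemW a a (by rw [supd_self]; omega) (hself a)
  obtain ⟨y, hyW, hymin⟩ := W.exists_min_image (fun y => ω (y, k, false)) ⟨a, haW⟩
  have hystrict : ∀ z ∈ W, z ≠ y → ω (y, k, false) < ω (z, k, false) := by
    intro z hz hne
    exact lt_of_le_of_ne (hymin z hz) (hties y z (Ne.symm hne))
  have hyW' := hyW
  rw [hW, mem_filter, mem_ballF] at hyW'
  obtain ⟨hyball, b1, hb1, hyb1⟩ := hyW'
  -- some ball centre misses y
  have hmiss : ∃ b, supd b a ≤ r ∧ y ∉ Cand s k ω b := by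
    by_contra hcon
    push Not at hcon
    have hmin : ∀ b, supd b a ≤ r → phi s k ω b = y := fun b hb =>
      phi_eq ⟨hcon b hb, fun z hz hne => hystrict z (hmemW b z hb hz) hne⟩
    apply hne0
    rw [hmin b0 hb0, hmin a (by rw [supd_self]; omega)]
  obtain ⟨b2, hb2, hyb2⟩ := hmiss
  refine ⟨y, mem_ballF.2 hyball, ?_, ?_⟩
  · unfold Cand at hyb1 hyb2
    rw [Set.mem_ofPred_eq] at hyb1 hyb2
    rw [not_le] at hyb2
    have hs0 : (0 : ℝ) < s := by exact_mod_cast hs
    have t1 : (supd y a : ℝ) ≤ supd y b1 + r := by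
      have := supd_triangle y b1 a
      exact_mod_cast (by omega : supd y a ≤ supd y b1 + r)
    have t2 : (supd y b2 : ℝ) ≤ supd y a + r := by
      have := supd_triangle y a b2
      rw [supd_comm a b2] at this
      exact_mod_cast (by omega : supd y b2 ≤ supd y a + r)
    unfold Win
    rw [Set.mem_ofPred_eq]
    constructor
    · rw [sub_le_iff_le_add, div_le_iff₀ hs0]
      nlinarith
    · have e : ((supd y a : ℝ) - r) / s - 1 + 2 * r / s = ((supd y a : ℝ) + r) / s - 1 := by
        field_simp; ring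
      rw [e, lt_sub_iff_add_lt, lt_div_iff₀ hs0]
      nlinarith
  · intro z hz hne
    refine hystrict z (hmemW a z (by rw [supd_self]; omega) (mem_cand_of_near ?_)) hne
    exact mem_ballF.1 hz

lemma measurableSet_win (s k r : ℕ) (a y : Site d) : MeasurableSet (Win s k r a y) := by
  unfold Win
  have h0 : Measurable fun ω : Cfg d => (ω (y, k, true) : ℝ) :=
    measurable_subtype_coe.comp (measurable_pi_apply _)
  exact (measurableSet_le measurable_const h0).inter (measurableSet_lt h0 measurable_const)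

lemma measurableSet_arg (s k : ℕ) (a y : Site d) : MeasurableSet (Arg s k a y) := by
  have : Arg s k a y = ⋂ z ∈ ballF a s, ({_ω : Cfg d | z = y} ∪
      {ω : Cfg d | ω (y, k, false) < ω (z, k, false)}) := by
    ext ω
    simp only [Arg, Set.mem_ofPred_eq, Set.mem_iInter, Set.mem_union]
    refine forall₂_congr fun j _ => ?_
    tauto
  rw [this]
  refine (ballF a s).measurableSet_biInter fun j _ => ?_
  exact (MeasurableSet.const _).union (measurableSet_lt (by fun_prop) (by fun_prop))

lemma prob_arg_le (s k : ℕ) (a y : Site d) :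
    PP d (Arg s k a y) ≤ (((2 * s + 1) ^ d : ℕ) : ℝ≥0∞)⁻¹ := by
  classical
  set T : Finset (Idx d) := (insert y (ballF a s)).image (fun z => (z, k, false)) with hT
  have hinj : Function.Injective (fun z : Site d => ((z, k, false) : Idx d)) := by
    intro z z' h; simpa using h
  have hcard : (2 * s + 1) ^ d ≤ T.card := by
    rw [hT, card_image_of_injective _ hinj, ← card_ballF a s]
    exact card_le_card (subset_insert _ _)
  have hmem : ((y, k, false) : Idx d) ∈ T := mem_image_of_mem _ (mem_insert_self _ _)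
  have hsub : Arg s k a y ⊆ {ω | ∀ j ∈ T, j ≠ (y, k, false) → ω (y, k, false) < ω j} := by
    intro ω hω j hj hne
    rw [hT, mem_image] at hj
    obtain ⟨z, hz, rfl⟩ := hj
    have hzy : z ≠ y := fun h => hne (by rw [h])
    rcases mem_insert.1 hz with h | h
    · exact absurd h hzy
    · exact hω z h hzy
  refine (measure_mono hsub).trans ((argmin_le hmem).trans ?_)
  rw [ENNReal.inv_le_inv]
  exact_mod_cast hcard

lemma prob_win_le (s k r : ℕ) (a y : Site d) :
    PP d (Win s k r a y) ≤ ENNReal.ofReal (2 * r / s) := window_le _ _ _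

lemma prob_win_inter_arg (s k r : ℕ) (a y : Site d) :
    PP d (Win s k r a y ∩ Arg s k a y) ≤
      ENNReal.ofReal (2 * r / s) * (((2 * s + 1) ^ d : ℕ) : ℝ≥0∞)⁻¹ := by
  have h := measure_inter_of_dependsOn (volume : Measure I) {((y, k, true) : Idx d)}
    (measurableSet_win s k r a y) (measurableSet_arg s k a y)
    (by
      intro ω ω' h
      have h1 := h (y, k, true) rfl
      simp only [Win, Set.mem_ofPred_eq, h1])
    (by
      intro ω ω' h
      have h1 : ∀ z : Site d, ω (z, k, false) = ω' (z, k, false) := fun z => h _ (by simp)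
      simp only [Arg, Set.mem_ofPred_eq, h1])
  rw [PP, h]
  exact mul_le_mul' (prob_win_le s k r a y) (prob_arg_le s k a y)

lemma measurableSet_notConst (s k r : ℕ) (a : Site d) :
    MeasurableSet {ω : Cfg d | NotConst s k r ω a} := by
  have : {ω : Cfg d | NotConst s k r ω a} = ⋃ b : Site d, ({_ω : Cfg d | supd b a ≤ r} ∩
      {ω : Cfg d | phi s k ω b ≠ phi s k ω a}) := by
    ext ω; simp [NotConst]
  rw [this]
  exact MeasurableSet.iUnion fun b => (MeasurableSet.const _).inter
    (measurableSet_eq_fun (measurable_phi s k b) (measurable_phi s k a)).compl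

/-- **Cut probability**. -/
theorem prob_notConst_le {s k r : ℕ} (hs : 1 ≤ s) (hr : r ≤ s) (a : Site d) :
    PP d {ω | NotConst s k r ω a} ≤ 3 ^ d * ENNReal.ofReal (2 * r / s) := by
  have hties : PP d {ω | ¬ ∀ y z : Site d, y ≠ z → ω (y, k, false) ≠ ω (z, k, false)} = 0 := by
    have : ∀ᵐ ω ∂(PP d), ∀ y z : Site d, y ≠ z → ω (y, k, false) ≠ ω (z, k, false) := by
      rw [ae_all_iff]; intro y
      rw [ae_all_iff]; intro z
      by_cases hyz : y = z
      · exact Filter.Eventually.of_forall fun ω h => absurd hyz h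
      · have h0 : PP d {ω | ω (y, k, false) = ω (z, k, false)} = 0 :=
          tie_null (fun h => hyz (by simpa using h))
        have h1 : ∀ᵐ ω ∂(PP d), ¬ (ω (y, k, false) = ω (z, k, false)) := by
          rw [ae_iff]
          simpa using h0
        filter_upwards [h1] with ω hω _
        exact hω
    exact this
  have hsub : {ω : Cfg d | NotConst s k r ω a} ⊆
      {ω | ¬ ∀ y z : Site d, y ≠ z → ω (y, k, false) ≠ ω (z, k, false)} ∪
      ⋃ y ∈ ballF a (2 * s + r), (Win s k r a y ∩ Arg s k a y) := by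
    intro ω hω
    by_cases ht : ∀ y z : Site d, y ≠ z → ω (y, k, false) ≠ ω (z, k, false)
    · right
      obtain ⟨y, hy, hyω⟩ := notConst_imp hs ht hω
      simp only [Set.mem_iUnion]
      exact ⟨y, hy, hyω⟩
    · left; exact ht
  calc PP d {ω | NotConst s k r ω a} ≤
      0 + PP d (⋃ y ∈ ballF a (2 * s + r), (Win s k r a y ∩ Arg s k a y)) := by
        rw [← hties]
        exact (measure_mono hsub).trans (measure_union_le _ _)
    _ ≤ ∑ y ∈ ballF a (2 * s + r), PP d (Win s k r a y ∩ Arg s k a y) := by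
        rw [zero_add]; exact measure_biUnion_finset_le _ _
    _ ≤ ∑ y ∈ ballF a (2 * s + r),
        ENNReal.ofReal (2 * r / s) * (((2 * s + 1) ^ d : ℕ) : ℝ≥0∞)⁻¹ :=
        sum_le_sum fun y _ => prob_win_inter_arg s k r a y
    _ = ((2 * (2 * s + r) + 1) ^ d : ℕ) *
        (ENNReal.ofReal (2 * r / s) * (((2 * s + 1) ^ d : ℕ) : ℝ≥0∞)⁻¹) := by
        rw [sum_const, card_ballF, nsmul_eq_mul]
    _ ≤ ((3 * (2 * s + 1)) ^ d : ℕ) *
        (ENNReal.ofReal (2 * r / s) * (((2 * s + 1) ^ d : ℕ) : ℝ≥0∞)⁻¹) := by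
        gcongr
        omega
    _ = 3 ^ d * ENNReal.ofReal (2 * r / s) *
        ((((2 * s + 1) ^ d : ℕ) : ℝ≥0∞) * (((2 * s + 1) ^ d : ℕ) : ℝ≥0∞)⁻¹) := by
        rw [mul_pow]; push_cast; ring
    _ = 3 ^ d * ENNReal.ofReal (2 * r / s) := by
        rw [ENNReal.mul_inv_cancel, mul_one]
        · have : (2 * s + 1) ^ d ≠ 0 := by positivity
          exact_mod_cast this
        · exact ENNReal.natCast_ne_top _

end Cut

end Pool.Agent.FFIID
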