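import Mathlib
import Pool.Agent.Lib_helper92.FFIID.Prob

/-!
# Iterated random carving
-/

open MeasureTheory Finset
open scoped ENNReal unitInterval

namespace Pool.Agent.FFIID

variable {d : ℕ}

/-- Total displacement bound after `k` levels. -/
def rad (s : ℕ → ℕ) : ℕ → ℕ
  | 0 => 0
  | k + 1 => rad s k + 2 * s k

/-- The centre of `x` after `k` levels. -/
noncomputable def oo (s : ℕ → ℕ) (ω : Cfg d) : ℕ → Site d → Site d
  | 0, x => x
  | k + 1, x => phi (s k) k ω (oo s ω k x)

/-- `x` is deep at level `k`. -/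
def dp (s : ℕ → ℕ) (ω : Cfg d) (k : ℕ) (x : Site d) : Prop :=
  ¬ NotConst (s k) k (4 + 2 * rad s k) ω (oo s ω k x)

lemma supd_oo (s : ℕ → ℕ) (ω : Cfg d) (k : ℕ) (x : Site d) : supd (oo s ω k x) x ≤ rad s k := by
  induction k with
  | zero => simp [oo, supd_self]
  | succ k ih =>
    have h1 := supd_triangle (oo s ω (k + 1) x) (oo s ω k x) x
    have h2 : supd (oo s ω (k + 1) x) (oo s ω k x) ≤ 2 * s k := phi_near _ _ _ _
    simp only [rad]
    omega

lemma phi_eq_of_not_notConst {s k r : ℕ} {ω : Cfg d} {a b : Site d} (h : ¬ NotConst s k r ω a)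
    (hb : supd b a ≤ r) : phi s k ω b = phi s k ω a := by
  by_contra hne
  exact h ⟨b, hb, hne⟩

lemma oo_h1 (s : ℕ → ℕ) (ω : Cfg d) : ∀ k x y, dp s ω k x → Near 4 x y →
    oo s ω (k + 1) y = oo s ω (k + 1) x := by
  intro k x y h hxy
  refine phi_eq_of_not_notConst h ?_
  have h1 := supd_triangle (oo s ω k y) y (oo s ω k x)
  have h2 := supd_triangle y x (oo s ω k x)
  have h3 := supd_oo s ω k y
  have h4 := supd_oo s ω k x
  rw [supd_comm] at h4
  have h5 : supd y x ≤ 4 := supd_le_iff.2 hxy.symm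
  omega

lemma oo_h2 (s : ℕ → ℕ) (ω : Cfg d) : ∀ k x y, oo s ω k x = oo s ω k y →
    (dp s ω k x ↔ dp s ω k y) := by
  intro k x y h
  unfold dp
  rw [h]

lemma oo_h3 (s : ℕ → ℕ) (ω : Cfg d) : ∀ k x y, oo s ω k x = oo s ω k y →
    oo s ω (k + 1) x = oo s ω (k + 1) y := by
  intro k x y h
  simp only [oo]
  rw [h]

/-! ### Locality -/

lemma oo_congr (s : ℕ → ℕ) {ω ω' : Cfg d} (k : ℕ) (x : Site d)
    (h : ∀ p : Idx d, p.2.1 < k → supd p.1 x ≤ rad s k → ω p = ω' p) :
    oo s ω k x = oo s ω' k x := by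
  induction k with
  | zero => rfl
  | succ k ih =>
    have e := ih fun p hp hpx => h p (by omega) (by simp only [rad]; omega)
    simp only [oo]
    rw [← e]
    refine phi_congr fun y hy t => h (y, k, t) (Nat.lt_succ_self k) ?_
    have h1 := supd_triangle y (oo s ω k x) x
    have h2 := supd_oo s ω k x
    simp only [rad]
    omega

lemma notConst_congr {s k r : ℕ} {ω ω' : Cfg d} {a : Site d}
    (h : Agree (r + 2 * s) k a ω ω') : NotConst s k r ω a ↔ NotConst s k r ω' a := by
  have key : ∀ b, supd b a ≤ r → phi s k ω b = phi s k ω' b := by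
    intro b hb
    refine phi_congr fun y hy t => h y ?_ t
    have := supd_triangle y b a
    omega
  have ha := key a (by rw [supd_self]; omega)
  constructor
  · rintro ⟨b, hb, hne⟩
    exact ⟨b, hb, by rw [← key b hb, ← ha]; exact hne⟩
  · rintro ⟨b, hb, hne⟩
    exact ⟨b, hb, by rw [key b hb, ha]; exact hne⟩

lemma dp_congr (s : ℕ → ℕ) {ω ω' : Cfg d} (k : ℕ) (x : Site d)
    (h : ∀ p : Idx d, p.2.1 ≤ k → supd p.1 x ≤ rad s (k + 1) + (4 + 2 * rad s k) → ω p = ω' p) :
    dp s ω k x ↔ dp s ω' k x := by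
  have e : oo s ω k x = oo s ω' k x := oo_congr s k x fun p hp hpx =>
    h p hp.le (by simp only [rad]; omega)
  unfold dp
  rw [← e, not_iff_not]
  refine notConst_congr fun y hy t => h (y, k, t) le_rfl ?_
  have h1 := supd_triangle y (oo s ω k x) x
  have h2 := supd_oo s ω k x
  simp only [rad]
  omega

/-! ### Measurability -/

lemma measurable_oo (s : ℕ → ℕ) (k : ℕ) (x : Site d) :
    Measurable fun ω : Cfg d => oo s ω k x := by
  induction k with
  | zero => exact measurable_const
  | succ k ih =>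
    have h1 : Measurable fun p : Cfg d × Site d => phi (s k) k p.1 p.2 :=
      measurable_from_prod_countable_left fun b => measurable_phi (s k) k b
    have h2 : Measurable fun ω : Cfg d => (ω, oo s ω k x) := measurable_id.prodMk ih
    have h3 : (fun ω : Cfg d => oo s ω (k + 1) x) =
        (fun p : Cfg d × Site d => phi (s k) k p.1 p.2) ∘ fun ω : Cfg d => (ω, oo s ω k x) := by
      funext ω; simp only [oo, Function.comp]
    rw [h3]
    exact h1.comp h2

lemma measurableSet_dp (s : ℕ → ℕ) (k : ℕ) (x : Site d) :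
    MeasurableSet {ω : Cfg d | dp s ω k x} := by
  have : {ω : Cfg d | dp s ω k x} = ⋃ a : Site d, ({ω : Cfg d | oo s ω k x = a} ∩
      {ω : Cfg d | NotConst (s k) k (4 + 2 * rad s k) ω a}ᶜ) := by
    ext ω; simp [dp]
  rw [this]
  exact MeasurableSet.iUnion fun a => ((measurable_oo s k x) (measurableSet_singleton a)).inter
    (measurableSet_notConst _ _ _ _).compl

lemma measurable_sInf_nat {Ω : Type*} [MeasurableSpace Ω] {p : ℕ → Ω → Prop}
    (hp : ∀ k, MeasurableSet {ω | p k ω}) : Measurable fun ω => sInf {k | p k ω} := by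
  refine measurable_of_Iic fun n => ?_
  have : (fun ω => sInf {k | p k ω}) ⁻¹' Set.Iic n = (⋃ k ∈ Finset.range (n + 1), {ω | p k ω}) ∪
      ⋂ k, {ω | p k ω}ᶜ := by
    ext ω
    simp only [Set.mem_preimage, Set.mem_Iic, Set.mem_union, Set.mem_iUnion, Set.mem_ofPred_eq,
      Set.mem_iInter, Set.mem_compl_iff, Finset.mem_range, exists_prop]
    constructor
    · intro h
      by_cases hex : ∃ k, p k ω
      · left
        have := Nat.sInf_mem (s := {k | p k ω}) hex
        exact ⟨_, by omega, this⟩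
      · right
        intro k hk
        exact hex ⟨k, hk⟩
    · rintro (⟨k, hk, hpk⟩ | h)
      · exact (Nat.sInf_le (s := {k | p k ω}) hpk).trans (by omega)
      · have : {k | p k ω} = ∅ := by
          ext k; simpa using h k
        rw [this]; simp
  rw [this]
  exact ((Finset.range (n + 1)).measurableSet_biUnion fun k _ => hp k).union
    (MeasurableSet.iInter fun k => (hp k).compl)

lemma measurable_kap (s : ℕ → ℕ) (x : Site d) : Measurable fun ω : Cfg d => kap (dp s ω) x :=
  measurable_sInf_nat fun k => measurableSet_dp s k x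

lemma measurable_cen (s : ℕ → ℕ) (x : Site d) :
    Measurable fun ω : Cfg d => cen (oo s ω) (dp s ω) x := by
  have h1 : Measurable fun p : Cfg d × ℕ => oo s p.1 (p.2 + 1) x :=
    measurable_from_prod_countable_left fun n => measurable_oo s (n + 1) x
  have h2 : Measurable fun ω : Cfg d => (ω, kap (dp s ω) x) :=
    measurable_id.prodMk (measurable_kap s x)
  have h3 : (fun ω : Cfg d => cen (oo s ω) (dp s ω) x) =
      (fun p : Cfg d × ℕ => oo s p.1 (p.2 + 1) x) ∘ fun ω : Cfg d => (ω, kap (dp s ω) x) := by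
    funext ω; simp only [cen, Function.comp]
  rw [h3]
  exact h1.comp h2

lemma measurableSet_flip (s : ℕ → ℕ) (r : ℤ) (x : Site d) :
    MeasurableSet {ω : Cfg d | Flip (oo s ω) (dp s ω) r x} := by
  have : {ω : Cfg d | Flip (oo s ω) (dp s ω) r x} = ⋃ z : Site d, ({_ω : Cfg d | Near r x z} ∩
      ((⋃ n : ℕ, ({ω : Cfg d | kap (dp s ω) z = n} ∩ {ω : Cfg d | dp s ω n z})) ∩
      ({ω : Cfg d | kap (dp s ω) z < kap (dp s ω) x} ∩
      {ω : Cfg d | Odd (∑ i, (cen (oo s ω) (dp s ω) z i - cen (oo s ω) (dp s ω) x i))}))) := by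
    ext ω
    simp [Flip]
  rw [this]
  refine MeasurableSet.iUnion fun z => (MeasurableSet.const _).inter (MeasurableSet.inter ?_
    (MeasurableSet.inter ?_ ?_))
  · exact MeasurableSet.iUnion fun n =>
      ((measurable_kap s z) (measurableSet_singleton n)).inter (measurableSet_dp s n z)
  · exact measurableSet_lt (measurable_kap s z) (measurable_kap s x)
  · have h2 : Measurable fun ω : Cfg d => (cen (oo s ω) (dp s ω) z, cen (oo s ω) (dp s ω) x) :=
      (measurable_cen s z).prodMk (measurable_cen s x)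
    exact h2 (MeasurableSet.of_discrete
      (s := {p : Site d × Site d | Odd (∑ i, (p.1 i - p.2 i))}))

open scoped Classical in
lemma measurable_mar (s : ℕ → ℕ) (x : Site d) :
    Measurable fun ω : Cfg d => mar (oo s ω) (dp s ω) x := by
  unfold mar
  exact Measurable.ite (measurableSet_flip s 1 x) measurable_const
    (Measurable.ite (measurableSet_flip s 2 x) measurable_const measurable_const)

lemma measurable_bit (s : ℕ → ℕ) (x : Site d) :
    Measurable fun ω : Cfg d => bit (oo s ω) (dp s ω) x := by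
  have h1 : Measurable fun c : Site d => if Even (∑ i, (x i - c i)) then (0 : ℕ) else 1 :=
    Measurable.of_discrete
  have h3 : (fun ω : Cfg d => bit (oo s ω) (dp s ω) x) =
      (fun c : Site d => if Even (∑ i, (x i - c i)) then (0 : ℕ) else 1) ∘
        fun ω : Cfg d => cen (oo s ω) (dp s ω) x := by
    funext ω; simp only [bit, Function.comp]
  rw [h3]
  exact h1.comp (measurable_cen s x)

/-- The colouring as a function of the configuration. -/
noncomputable def Fc (s : ℕ → ℕ) (ω : Cfg d) (x : Site d) : Fin 3 := col (oo s ω) (dp s ω) x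

lemma measurable_Fc (s : ℕ → ℕ) (x : Site d) : Measurable fun ω : Cfg d => Fc s ω x := by
  have h1 : Measurable fun p : ℕ × ℕ => Fin.ofNat 3 (p.1 + (p.1 + p.2) % 2) :=
    Measurable.of_discrete
  exact h1.comp ((measurable_mar s x).prodMk (measurable_bit s x))

/-! ### Equivariance -/

lemma notConst_cshift (s k r : ℕ) (v : Site d) (ω : Cfg d) (a : Site d) :
    NotConst s k r (cshift v ω) a ↔ NotConst s k r ω (a + v) := by
  unfold NotConst
  constructor
  · rintro ⟨b, hb, hne⟩
    refine ⟨b + v, by rwa [supd_add], fun h => hne ?_⟩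
    rw [phi_cshift, phi_cshift, h]
  · rintro ⟨b, hb, hne⟩
    refine ⟨b - v, ?_, fun h => hne ?_⟩
    · rw [← supd_add _ _ v]; simpa using hb
    · rw [phi_cshift, phi_cshift] at h
      simpa using h

lemma oo_cshift (s : ℕ → ℕ) (v : Site d) (ω : Cfg d) (k : ℕ) (x : Site d) :
    oo s (cshift v ω) k x = oo s ω k (x + v) - v := by
  induction k with
  | zero => simp [oo]
  | succ k ih =>
    simp only [oo]
    rw [phi_cshift, ih]
    simp

lemma dp_cshift (s : ℕ → ℕ) (v : Site d) (ω : Cfg d) (k : ℕ) (x : Site d) :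
    dp s (cshift v ω) k x ↔ dp s ω k (x + v) := by
  unfold dp
  rw [notConst_cshift, oo_cshift]
  simp

lemma kap_cshift (s : ℕ → ℕ) (v : Site d) (ω : Cfg d) (x : Site d) :
    kap (dp s (cshift v ω)) x = kap (dp s ω) (x + v) := by
  unfold kap
  simp only [dp_cshift]

lemma cen_cshift (s : ℕ → ℕ) (v : Site d) (ω : Cfg d) (x : Site d) :
    cen (oo s (cshift v ω)) (dp s (cshift v ω)) x = cen (oo s ω) (dp s ω) (x + v) - v := by
  unfold cen
  rw [kap_cshift, oo_cshift]

lemma flip_cshift (s : ℕ → ℕ) (v : Site d) (ω : Cfg d) (r : ℤ) (x : Site d) :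
    Flip (oo s (cshift v ω)) (dp s (cshift v ω)) r x ↔ Flip (oo s ω) (dp s ω) r (x + v) := by
  unfold Flip
  simp only [kap_cshift, cen_cshift, dp_cshift]
  constructor
  · rintro ⟨z, h1, h2, h3, h4⟩
    refine ⟨z + v, fun i => by simpa using h1 i, h2, h3, ?_⟩
    simpa using h4
  · rintro ⟨z, h1, h2, h3, h4⟩
    refine ⟨z - v, fun i => ?_, by simpa using h2, by simpa using h3, by simpa using h4⟩
    have := h1 i
    simp only [Pi.add_apply, Pi.sub_apply] at this ⊢
    rwa [show x i - (z i - v i) = x i + v i - z i by ring]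

lemma mar_congr {o o' : ℕ → Site d → Site d} {deep deep' : ℕ → Site d → Prop} {x x' : Site d}
    (h1 : Flip o deep 1 x ↔ Flip o' deep' 1 x') (h2 : Flip o deep 2 x ↔ Flip o' deep' 2 x') :
    mar o deep x = mar o' deep' x' := by
  classical
  unfold mar
  by_cases a1 : Flip o deep 1 x
  · rw [if_pos a1, if_pos (h1.1 a1)]
  · rw [if_neg a1, if_neg (fun h => a1 (h1.2 h))]
    by_cases a2 : Flip o deep 2 x
    · rw [if_pos a2, if_pos (h2.1 a2)]
    · rw [if_neg a2, if_neg (fun h => a2 (h2.2 h))]

lemma Fc_cshift (s : ℕ → ℕ) (v : Site d) (ω : Cfg d) (x : Site d) :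
    Fc s (cshift v ω) x = Fc s ω (x + v) := by
  have hm : mar (oo s (cshift v ω)) (dp s (cshift v ω)) x = mar (oo s ω) (dp s ω) (x + v) :=
    mar_congr (flip_cshift s v ω 1 x) (flip_cshift s v ω 2 x)
  have hb : bit (oo s (cshift v ω)) (dp s (cshift v ω)) x = bit (oo s ω) (dp s ω) (x + v) := by
    unfold bit
    have : ∀ i ∈ (univ : Finset (Fin d)), x i - cen (oo s (cshift v ω)) (dp s (cshift v ω)) x i =
        (x + v) i - cen (oo s ω) (dp s ω) (x + v) i := by
      intro i _
      rw [cen_cshift]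
      simp only [Pi.add_apply, Pi.sub_apply]
      ring
    rw [sum_congr rfl this]
  unfold Fc col
  rw [hm, hb]

/-! ### Determination -/

lemma kap_eq_of {deep : ℕ → Site d → Prop} {x : Site d} {j : ℕ} (h : deep j x)
    (hlt : ∀ i < j, ¬ deep i x) : kap deep x = j := by
  refine le_antisymm (kap_le h) ?_
  by_contra hcon
  push Not at hcon
  exact hlt _ hcon (deep_kap ⟨j, h⟩)

lemma flip_congr_aux {o o' : ℕ → Site d → Site d} {deep deep' : ℕ → Site d → Prop} {j : ℕ}
    {x : Site d} (hx : kap deep x = j) (hx' : kap deep' x = j)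
    (hcen : cen o deep x = cen o' deep' x)
    (hd : ∀ z, Near 2 x z → ∀ i ≤ j, (deep i z ↔ deep' i z))
    (ho : ∀ z, Near 2 x z → ∀ i ≤ j, o (i + 1) z = o' (i + 1) z) {r : ℤ} (hr : r ≤ 2)
    (h : Flip o deep r x) : Flip o' deep' r x := by
  obtain ⟨z, hz, hdz, hlt, hodd⟩ := h
  have hz2 := hz.mono hr
  rw [hx] at hlt
  have hk : kap deep' z = kap deep z := by
    refine kap_eq_of ((hd z hz2 _ hlt.le).1 hdz) fun i hi hdi => ?_
    exact not_deep_of_lt_kap hi ((hd z hz2 i (by omega)).2 hdi)
  have hc : cen o' deep' z = cen o deep z := by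
    unfold cen
    rw [hk]
    exact (ho z hz2 _ hlt.le).symm
  refine ⟨z, hz, ?_, ?_, ?_⟩
  · rw [hk]; exact (hd z hz2 _ hlt.le).1 hdz
  · rw [hk, hx']; exact hlt
  · rw [hc, ← hcen]; exact hodd

lemma col_congr {o o' : ℕ → Site d → Site d} {deep deep' : ℕ → Site d → Prop} {j : ℕ}
    {x : Site d} (hj : deep j x) (hlt : ∀ i < j, ¬ deep i x)
    (hd : ∀ z, Near 2 x z → ∀ i ≤ j, (deep i z ↔ deep' i z))
    (ho : ∀ z, Near 2 x z → ∀ i ≤ j, o (i + 1) z = o' (i + 1) z) :
    col o deep x = col o' deep' x := by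
  have hxx : Near 2 x x := Near.refl (by norm_num) x
  have hx : kap deep x = j := kap_eq_of hj hlt
  have hx' : kap deep' x = j := kap_eq_of ((hd x hxx j le_rfl).1 hj)
    fun i hi hdi => hlt i hi ((hd x hxx i hi.le).2 hdi)
  have hcen : cen o deep x = cen o' deep' x := by
    unfold cen
    rw [hx, hx']
    exact ho x hxx j le_rfl
  have hflip : ∀ r : ℤ, r ≤ 2 → (Flip o deep r x ↔ Flip o' deep' r x) := by
    intro r hr
    exact ⟨flip_congr_aux hx hx' hcen hd ho hr,
      flip_congr_aux hx' hx hcen.symm (fun z hz i hi => (hd z hz i hi).symm)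
        (fun z hz i hi => (ho z hz i hi).symm) hr⟩
  have hm : mar o deep x = mar o' deep' x :=
    mar_congr (hflip 1 (by norm_num)) (hflip 2 (by norm_num))
  have hb : bit o deep x = bit o' deep' x := by
    unfold bit
    rw [hcen]
  unfold col
  rw [hm, hb]

/-- The radius of the labels which are needed if the origin is settled at level `j`. -/
def need (s : ℕ → ℕ) (j : ℕ) : ℕ := 2 + (rad s (j + 1) + (4 + 2 * rad s j))

lemma rad_mono (s : ℕ → ℕ) {i j : ℕ} (h : i ≤ j) : rad s i ≤ rad s j := by
  induction j, h using Nat.le_induction with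
  | base => exact le_rfl
  | succ j _ ih => simp only [rad]; omega

lemma Fc_congr (s : ℕ → ℕ) {ω ω' : Cfg d} {j : ℕ} {x : Site d} (hj : dp s ω j x)
    (hlt : ∀ i < j, ¬ dp s ω i x) (h : ∀ p : Idx d, supd p.1 x ≤ need s j → ω p = ω' p) :
    Fc s ω x = Fc s ω' x := by
  refine col_congr hj hlt ?_ ?_
  · intro z hz i hi
    refine dp_congr s i z fun p _ hpz => h p ?_
    have h1 := supd_triangle p.1 z x
    have h2 : supd z x ≤ 2 := supd_le_iff.2 hz.symm
    have h3 := rad_mono s (Nat.succ_le_succ hi)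
    have h4 := rad_mono s hi
    simp only [Nat.succ_eq_add_one] at h3
    unfold need
    omega
  · intro z hz i hi
    refine oo_congr s (i + 1) z fun p _ hpz => h p ?_
    have h1 := supd_triangle p.1 z x
    have h2 : supd z x ≤ 2 := supd_le_iff.2 hz.symm
    have h3 := rad_mono s (Nat.succ_le_succ hi)
    simp only [Nat.succ_eq_add_one] at h3
    unfold need
    omega

/-! ### Independence of the levels -/

/-- Not settled before level `j`. -/
def late (s : ℕ → ℕ) (j : ℕ) (x : Site d) : Set (Cfg d) := {ω | ∀ i < j, ¬ dp s ω i x}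

lemma measurableSet_late (s : ℕ → ℕ) (j : ℕ) (x : Site d) : MeasurableSet (late s j x) := by
  have : late s j x = ⋂ i ∈ Finset.range j, {ω : Cfg d | dp s ω i x}ᶜ := by
    ext ω; simp [late]
  rw [this]
  exact (Finset.range j).measurableSet_biInter fun i _ => (measurableSet_dp s i x).compl

/-- cut probability bound at level `i` -/
noncomputable def pcut (d : ℕ) (s : ℕ → ℕ) (i : ℕ) : ℝ≥0∞ :=
  3 ^ d * ENNReal.ofReal (2 * ((4 + 2 * rad s i : ℕ) : ℝ) / s i)

lemma prob_late_le {s : ℕ → ℕ} (hs : ∀ i, 4 + 2 * rad s i ≤ s i) (j : ℕ) (x : Site d) :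
    PP d (late s j x) ≤ ∏ i ∈ range j, pcut d s i := by
  induction j with
  | zero =>
    simp only [range_zero, prod_empty]
    exact prob_le_one
  | succ j ih =>
    set A : Site d → Set (Cfg d) := fun a => late s j x ∩ {ω | oo s ω j x = a} with hA
    set N : Site d → Set (Cfg d) := fun a =>
      {ω | NotConst (s j) j (4 + 2 * rad s j) ω a} with hN
    have hAm : ∀ a, MeasurableSet (A a) := fun a =>
      (measurableSet_late s j x).inter ((measurable_oo s j x) (measurableSet_singleton a))
    have hNm : ∀ a, MeasurableSet (N a) := fun a => measurableSet_notConst _ _ _ _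
    have hsub : late s (j + 1) x ⊆ ⋃ a, (A a ∩ N a) := by
      intro ω hω
      rw [Set.mem_iUnion]
      refine ⟨oo s ω j x, ⟨fun i hi => hω i (by omega), rfl⟩, ?_⟩
      have := hω j (Nat.lt_succ_self j)
      unfold dp at this
      rw [not_not] at this
      exact this
    have hind : ∀ a, PP d (A a ∩ N a) = PP d (A a) * PP d (N a) := by
      intro a
      refine measure_inter_of_dependsOn (volume : Measure I) {p : Idx d | p.2.1 < j}
        (hAm a) (hNm a) ?_ ?_
      · intro ω ω' h
        have e1 : oo s ω j x = oo s ω' j x := oo_congr s j x fun p hp _ => h p hp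
        have e2 : ∀ i < j, (dp s ω i x ↔ dp s ω' i x) := fun i hi =>
          dp_congr s i x fun p hp _ => h p (lt_of_le_of_lt hp hi)
        simp only [hA, late, Set.mem_inter_iff, Set.mem_ofPred_eq, e1]
        refine and_congr_left fun _ => forall₂_congr fun i hi => not_congr (e2 i hi)
      · intro ω ω' h
        refine notConst_congr fun y _ t => h (y, j, t) ?_
        simp
    have hdisj : Pairwise (Function.onFun Disjoint A) := by
      intro a b hab
      rw [Function.onFun, Set.disjoint_left]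
      rintro ω ⟨_, h1⟩ ⟨_, h2⟩
      exact hab (h1.symm.trans h2)
    calc PP d (late s (j + 1) x) ≤ PP d (⋃ a, (A a ∩ N a)) := measure_mono hsub
      _ ≤ ∑' a, PP d (A a ∩ N a) := measure_iUnion_le _
      _ = ∑' a, PP d (A a) * PP d (N a) := by
          congr 1; funext a; exact hind a
      _ ≤ ∑' a, PP d (A a) * pcut d s j := by
          refine ENNReal.tsum_le_tsum fun a => ?_
          gcongr
          have h4 := hs j
          exact prob_notConst_le (by omega) (hs j) a
      _ = (∑' a, PP d (A a)) * pcut d s j := ENNReal.tsum_mul_right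
      _ = PP d (⋃ a, A a) * pcut d s j := by rw [measure_iUnion hdisj hAm]
      _ ≤ PP d (late s j x) * pcut d s j := by
          gcongr
          exact Set.iUnion_subset fun a => Set.inter_subset_left
      _ ≤ (∏ i ∈ range j, pcut d s i) * pcut d s j := by gcongr
      _ = ∏ i ∈ range (j + 1), pcut d s i := (prod_range_succ _ _).symm

end Pool.Agent.FFIID
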