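import Mathlib
import Pool.Agent.Lib_helper92.FFIID.Levels

/-!
# Scales, summability, and moments of the settling level
-/

open MeasureTheory Finset
open scoped ENNReal unitInterval

namespace Pool.Agent.FFIID

variable {d : ℕ}

/-- The base of the scales. -/
def base (d : ℕ) : ℕ := 48 * 3 ^ d

/-- The scales `s_i = base ^ (i+1) * 2 ^ (1 + 2 + ... + i)`. -/
def sc (d : ℕ) : ℕ → ℕ
  | 0 => base d
  | i + 1 => base d * 2 ^ (i + 1) * sc d i

lemma base_pos (d : ℕ) : 48 ≤ base d := by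
  unfold base
  have : 1 ≤ 3 ^ d := Nat.one_le_pow _ _ (by norm_num)
  omega

lemma sc_pos (d i : ℕ) : 1 ≤ sc d i := by
  induction i with
  | zero => exact (by norm_num : 1 ≤ 48).trans (base_pos d)
  | succ i ih =>
    simp only [sc]
    have h1 := base_pos d
    have h2 : 1 ≤ 2 ^ (i + 1) := Nat.one_le_pow _ _ (by norm_num)
    have h3 : 1 ≤ base d := by omega
    exact Nat.mul_pos (Nat.mul_pos h3 h2) ih

lemma sc_double (d i : ℕ) : 2 * sc d i ≤ sc d (i + 1) := by
  simp only [sc]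
  have h1 := base_pos d
  have h2 : 1 ≤ 2 ^ (i + 1) := Nat.one_le_pow _ _ (by norm_num)
  have : 2 ≤ base d * 2 ^ (i + 1) := by nlinarith
  exact Nat.mul_le_mul_right _ this

lemma rad_sc_le (d i : ℕ) : rad (sc d) (i + 1) ≤ 4 * sc d i := by
  induction i with
  | zero => simp only [rad]; omega
  | succ i ih =>
    have h := sc_double d i
    have e : rad (sc d) (i + 1 + 1) = rad (sc d) (i + 1) + 2 * sc d (i + 1) := rfl
    omega

lemma ratio_le (d i : ℕ) : base d * 2 ^ i * (4 + 2 * rad (sc d) i) ≤ 12 * sc d i := by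
  cases i with
  | zero => simp only [rad, sc]; omega
  | succ i =>
    have h1 := rad_sc_le d i
    have h2 := sc_pos d i
    have h3 : 4 + 2 * rad (sc d) (i + 1) ≤ 12 * sc d i := by omega
    calc base d * 2 ^ (i + 1) * (4 + 2 * rad (sc d) (i + 1)) ≤
        base d * 2 ^ (i + 1) * (12 * sc d i) := Nat.mul_le_mul_left _ h3
      _ = 12 * sc d (i + 1) := by simp only [sc]; ring

lemma sc_ok (d i : ℕ) : 4 + 2 * rad (sc d) i ≤ sc d i := by
  have h := ratio_le d i
  have h1 := base_pos d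
  have h2 : 1 ≤ 2 ^ i := Nat.one_le_pow _ _ (by norm_num)
  have h3 : 12 ≤ base d * 2 ^ i := by nlinarith
  have h4 : 12 * (4 + 2 * rad (sc d) i) ≤ 12 * sc d i :=
    (Nat.mul_le_mul_right _ h3).trans h
  omega

lemma pcut_le (d i : ℕ) : pcut d (sc d) i ≤ ENNReal.ofReal ((1 / 2 : ℝ) ^ (i + 1)) := by
  unfold pcut
  have h := ratio_le d i
  have hs : (0 : ℝ) < sc d i := by exact_mod_cast sc_pos d i
  have hreal : (base d : ℝ) * 2 ^ i * ((4 + 2 * rad (sc d) i : ℕ) : ℝ) ≤ 12 * sc d i := by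
    exact_mod_cast h
  have hb : (base d : ℝ) = 48 * 3 ^ d := by unfold base; push_cast; ring
  have e3 : (3 : ℝ≥0∞) ^ d = ENNReal.ofReal (3 ^ d) := by
    rw [ENNReal.ofReal_pow (by norm_num)]; norm_num
  rw [e3, ← ENNReal.ofReal_mul (by positivity)]
  apply ENNReal.ofReal_le_ofReal
  rw [← mul_div_assoc, div_le_iff₀ hs, pow_succ, one_div, inv_pow]
  have h2 : (0 : ℝ) < 2 ^ i := by positivity
  rw [hb] at hreal
  have : (2 : ℝ) ^ i * (3 ^ d * (2 * ((4 + 2 * rad (sc d) i : ℕ) : ℝ))) ≤ 2⁻¹ * sc d i := by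
    nlinarith
  calc (3 : ℝ) ^ d * (2 * ((4 + 2 * rad (sc d) i : ℕ) : ℝ)) =
      (2 ^ i)⁻¹ * (2 ^ i * (3 ^ d * (2 * ((4 + 2 * rad (sc d) i : ℕ) : ℝ)))) := by
        field_simp
    _ ≤ (2 ^ i)⁻¹ * (2⁻¹ * sc d i) := by gcongr
    _ = (2 ^ i)⁻¹ * 2⁻¹ * sc d i := by ring

/-- `q_j = ∏_{i < j} 2^{-(i+1)}` -/
noncomputable def qq (j : ℕ) : ℝ := ∏ i ∈ range j, (1 / 2 : ℝ) ^ (i + 1)

lemma qq_pos (j : ℕ) : 0 < qq j := by
  unfold qq
  exact prod_pos fun i _ => by positivity

lemma qq_succ (j : ℕ) : qq (j + 1) = qq j * (1 / 2 : ℝ) ^ (j + 1) := by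
  unfold qq; rw [prod_range_succ]

lemma prob_late_sc (j : ℕ) (x : Site d) :
    PP d (late (sc d) j x) ≤ ENNReal.ofReal (qq j) := by
  refine (prob_late_le (sc_ok d) j x).trans ?_
  unfold qq
  rw [ENNReal.ofReal_prod_of_nonneg fun i _ => by positivity]
  exact prod_le_prod' fun i _ => pcut_le d i

lemma need_le (d j : ℕ) : need (sc d) j ≤ 18 * sc d j := by
  unfold need
  have h1 := rad_sc_le d j
  have h2 : rad (sc d) j ≤ rad (sc d) (j + 1) := rad_mono _ (Nat.le_succ j)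
  have h3 := sc_pos d j
  omega

lemma qq_tendsto : Filter.Tendsto qq Filter.atTop (nhds 0) := by
  have h : ∀ j, qq j ≤ (1 / 2 : ℝ) ^ j := by
    intro j
    induction j with
    | zero => simp [qq]
    | succ j ih =>
      rw [qq_succ]
      have h1 : (1 / 2 : ℝ) ^ (j + 1) ≤ 1 / 2 := by
        rw [pow_succ]
        have : (1 / 2 : ℝ) ^ j ≤ 1 := pow_le_one₀ (by norm_num) (by norm_num)
        linarith
      calc qq j * (1 / 2 : ℝ) ^ (j + 1) ≤ (1 / 2 : ℝ) ^ j * (1 / 2) :=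
            mul_le_mul ih h1 (by positivity) (by positivity)
        _ = (1 / 2 : ℝ) ^ (j + 1) := (pow_succ _ _).symm
  exact squeeze_zero (fun j => (qq_pos j).le) h
    (tendsto_pow_atTop_nhds_zero_of_lt_one (by norm_num) (by norm_num))

/-- Almost surely every site is settled. -/
lemma ae_settled (d : ℕ) : ∀ᵐ ω ∂(PP d), ∀ x : Site d, ∃ k, dp (sc d) ω k x := by
  rw [ae_all_iff]
  intro x
  rw [ae_iff]
  have hsub : ∀ j, {ω : Cfg d | ¬ ∃ k, dp (sc d) ω k x} ⊆ late (sc d) j x := by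
    intro j ω hω i _ hdi
    exact hω ⟨i, hdi⟩
  have hle : ∀ j, PP d {ω : Cfg d | ¬ ∃ k, dp (sc d) ω k x} ≤ ENNReal.ofReal (qq j) := fun j =>
    (measure_mono (hsub j)).trans (prob_late_sc j x)
  have ht : Filter.Tendsto (fun j => ENNReal.ofReal (qq j)) Filter.atTop (nhds 0) := by
    have := ENNReal.tendsto_ofReal qq_tendsto
    simpa using this
  exact le_antisymm (ge_of_tendsto' ht hle) bot_le

/-- The terms of the moment series. -/
noncomputable def term (d : ℕ) (α : ℝ) (j : ℕ) : ℝ := ((d * (18 * sc d j) : ℕ) : ℝ) ^ α * qq j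

lemma term_nonneg (d : ℕ) (α : ℝ) (j : ℕ) : 0 ≤ term d α j :=
  mul_nonneg (Real.rpow_nonneg (by positivity) _) (qq_pos j).le

lemma summable_term (d : ℕ) {α : ℝ} (h0 : 0 < α) (h1 : α < 1) : Summable (term d α) := by
  rcases Nat.eq_zero_or_pos d with hd | hd
  · have : term d α = fun _ => 0 := by
      funext j
      unfold term
      rw [hd]
      simp [Real.zero_rpow h0.ne']
    rw [this]; exact summable_zero
  have hsc : ∀ j, (0 : ℝ) < sc d j := fun j => by exact_mod_cast sc_pos d j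
  have hd' : (0 : ℝ) < d := by exact_mod_cast hd
  have hpos : ∀ j, 0 < term d α j := fun j => by
    unfold term
    push_cast
    have := hsc j
    have := qq_pos j
    positivity
  have hratio : ∀ j, term d α (j + 1) / term d α j =
      (base d : ℝ) ^ α * ((2 : ℝ) ^ (α - 1)) ^ (j + 1) := by
    intro j
    have hs := hsc j
    have hq := qq_pos j
    have hb : (0 : ℝ) < base d := by
      have := base_pos d
      exact_mod_cast (by omega : 0 < base d)
    rw [div_eq_iff (hpos j).ne']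
    unfold term
    rw [qq_succ]
    have e1 : ((d * (18 * sc d (j + 1)) : ℕ) : ℝ) =
        (base d : ℝ) * (2 ^ (j + 1) * ((d * (18 * sc d j) : ℕ) : ℝ)) := by
      simp only [sc]; push_cast; ring
    rw [e1, Real.mul_rpow hb.le (by positivity), Real.mul_rpow (by positivity) (by positivity)]
    have e2 : ((2 : ℝ) ^ (j + 1)) ^ α * (1 / 2 : ℝ) ^ (j + 1) = ((2 : ℝ) ^ (α - 1)) ^ (j + 1) := by
      rw [← Real.rpow_natCast 2 (j + 1), ← Real.rpow_mul (by norm_num), mul_comm ((j + 1 : ℕ) : ℝ) α,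
        Real.rpow_mul (by norm_num), Real.rpow_natCast, ← mul_pow]
      congr 1
      rw [Real.rpow_sub (by norm_num), Real.rpow_one]
      ring
    rw [← e2]
    ring
  refine summable_of_ratio_test_tendsto_lt_one (l := 0) (by norm_num)
    (Filter.Eventually.of_forall fun j => (hpos j).ne') ?_
  have hfun : (fun n => ‖term d α (n + 1)‖ / ‖term d α n‖) =
      fun n => (base d : ℝ) ^ α * ((2 : ℝ) ^ (α - 1)) ^ (n + 1) := by
    funext n
    rw [Real.norm_of_nonneg (hpos _).le, Real.norm_of_nonneg (hpos _).le, hratio]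
  rw [hfun]
  have hlt : (2 : ℝ) ^ (α - 1) < 1 := Real.rpow_lt_one_of_one_lt_of_neg (by norm_num) (by linarith)
  have h := (tendsto_pow_atTop_nhds_zero_of_lt_one (by positivity) hlt).comp
    (Filter.tendsto_add_atTop_nat 1)
  have h' := h.const_mul ((base d : ℝ) ^ α)
  simpa [Function.comp_def] using h'

/-- The measurable bound for the coding radius. -/
noncomputable def NN (d : ℕ) (ω : Cfg d) : ℕ := d * (18 * sc d (kap (dp (sc d) ω) 0))

lemma measurable_NN (d : ℕ) : Measurable (NN d) := by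
  have h1 : Measurable fun n : ℕ => d * (18 * sc d n) := Measurable.of_discrete
  exact h1.comp (measurable_kap (sc d) 0)

lemma moment_NN (d : ℕ) {α : ℝ} (h0 : 0 < α) (h1 : α < 1) :
    ∫⁻ ω, ((NN d ω : ℕ) : ℝ≥0∞) ^ α ∂(PP d) < ⊤ := by
  set κ : Cfg d → ℕ := fun ω => kap (dp (sc d) ω) 0 with hκ
  have hκm : Measurable κ := measurable_kap (sc d) 0
  have hg : Measurable fun n : ℕ => (((d * (18 * sc d n) : ℕ) : ℝ≥0∞)) ^ α := Measurable.of_discrete
  have e1 : ∫⁻ ω, ((NN d ω : ℕ) : ℝ≥0∞) ^ α ∂(PP d) =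
      ∫⁻ n, (((d * (18 * sc d n) : ℕ) : ℝ≥0∞)) ^ α ∂((PP d).map κ) := by
    rw [lintegral_map hg hκm]
    rfl
  rw [e1, lintegral_countable']
  have hle : ∀ n, (((d * (18 * sc d n) : ℕ) : ℝ≥0∞)) ^ α * ((PP d).map κ) {n} ≤
      ENNReal.ofReal (term d α n) := by
    intro n
    rw [Measure.map_apply hκm (measurableSet_singleton n)]
    have hsub : κ ⁻¹' {n} ⊆ late (sc d) n 0 := by
      intro ω hω i hi
      have : κ ω = n := hω
      exact not_deep_of_lt_kap (by rw [← this] at hi; exact hi)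
    unfold term
    rw [ENNReal.ofReal_mul (Real.rpow_nonneg (by positivity) _)]
    refine mul_le_mul' ?_ ((measure_mono hsub).trans (prob_late_sc n 0))
    rw [← ENNReal.ofReal_rpow_of_nonneg (by positivity) h0.le, ENNReal.ofReal_natCast]
  refine lt_of_le_of_lt (ENNReal.tsum_le_tsum hle) ?_
  rw [← ENNReal.ofReal_tsum_of_nonneg (term_nonneg d α) (summable_term d h0 h1)]
  exact ENNReal.ofReal_lt_top

end Pool.Agent.FFIID
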