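import Mathlib
import Pool.Agent.Lib_helper92.FFIID.Moments

/-!
# An explicit ffiid 3-colouring with all moments of order less than one
-/

open MeasureTheory Finset
open scoped ENNReal unitInterval

namespace Pool.Agent.FFIID

variable {d : ℕ}

/-- Expand the label of each site into a family of labels. -/
def expand (G : I → ℕ × Bool → I) (y : Site d → I) : Cfg d := fun p => G (y p.1) p.2

lemma expand_shift (G : I → ℕ × Bool → I) (v : Site d) (y : Site d → I) :
    expand G (shift v y) = cshift v (expand G y) := rfl

lemma measurable_expand {G : I → ℕ × Bool → I} (hG : Measurable G) :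
    Measurable (expand G : (Site d → I) → Cfg d) := by
  refine measurable_pi_lambda _ fun p => ?_
  exact (measurable_pi_apply p.2).comp (hG.comp (measurable_pi_apply p.1))

lemma map_expand {G : I → ℕ × Bool → I} (hG : Measurable G)
    (hmap : (volume : Measure I).map G =
      Measure.infinitePi fun _ : ℕ × Bool => (volume : Measure I)) :
    (iid d (volume : Measure I)).map (expand G) = PP d := by
  have h1 : (iid d (volume : Measure I)).map (fun (y : Site d → I) v => G (y v)) =
      Measure.infinitePi fun _ : Site d =>
        Measure.infinitePi fun _ : ℕ × Bool => (volume : Measure I) := by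
    unfold iid
    rw [Measure.infinitePi_map_pi (fun _ : Site d => (volume : Measure I)) (fun _ => hG)]
    congr 1
    funext v
    exact hmap
  have h2 := Measure.infinitePi_map_curry_symm (ι := Site d) (κ := ℕ × Bool)
    (fun _ _ => (volume : Measure I))
  have h3 : (expand G : (Site d → I) → Cfg d) =
      (MeasurableEquiv.curry (Site d) (ℕ × Bool) I).symm ∘
        fun (y : Site d → I) v => G (y v) := by
    funext y p
    rfl
  have hm : Measurable fun (y : Site d → I) (v : Site d) => G (y v) :=
    measurable_pi_lambda _ fun v => hG.comp (measurable_pi_apply v)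
  have h4 := Measure.map_map (μ := iid d (volume : Measure I))
    (MeasurableEquiv.curry (Site d) (ℕ × Bool) I).symm.measurable hm
  rw [h3, ← h4, h1, h2]

lemma l1_le_supd (u : Site d) : l1 u ≤ d * supd u 0 := by
  unfold l1
  have : ∀ i ∈ (univ : Finset (Fin d)), (u i).natAbs ≤ supd u 0 := by
    intro i hi
    unfold supd
    have := Finset.le_sup (f := fun i => (u i - (0 : Site d) i).natAbs) hi
    simpa using this
  calc ∑ i, (u i).natAbs ≤ ∑ _i : Fin d, supd u 0 := sum_le_sum this
    _ = d * supd u 0 := by simp

/-- The colouring. -/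
noncomputable def FF (G : I → ℕ × Bool → I) (y : Site d → I) (x : Site d) : Fin 3 :=
  Fc (sc d) (expand G y) x

theorem exists_coloring (d : ℕ) : ∃ F : (Site d → I) → Site d → Fin 3,
    IsFFIIDColoring d (volume : Measure I) F ∧ ∃ N : (Site d → I) → ℕ, Measurable N ∧
      (∀ᵐ y ∂(iid d (volume : Measure I)), Determines F y (N y)) ∧
      ∀ α : ℝ, 0 < α → α < 1 →
        ∫⁻ y, ((N y : ℕ) : ℝ≥0∞) ^ α ∂(iid d (volume : Measure I)) < ⊤ := by
  obtain ⟨G, hG, hmap⟩ := Measure.exists_measurable_map_eq
    (Measure.infinitePi fun _ : ℕ × Bool => (volume : Measure I))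
  have hE : Measurable (expand G : (Site d → I) → Cfg d) := measurable_expand hG
  have hmp : MeasurePreserving (expand G : (Site d → I) → Cfg d) (iid d (volume : Measure I))
      (PP d) := ⟨hE, map_expand hG hmap⟩
  have hset : ∀ᵐ y ∂(iid d (volume : Measure I)), ∀ x : Site d, ∃ k, dp (sc d) (expand G y) k x :=
    hmp.quasiMeasurePreserving.ae (ae_settled d)
  have hdet : ∀ᵐ y ∂(iid d (volume : Measure I)), Determines (FF G) y (NN d (expand G y)) := by
    filter_upwards [hset] with y hy y' hyy
    have h0 := deep_kap (hy 0)
    refine (Fc_congr (sc d) (j := kap (dp (sc d) (expand G y)) 0) (x := 0) h0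
      (fun i hi => not_deep_of_lt_kap hi) fun p hp => ?_).symm
    unfold expand
    rw [hyy p.1 ?_]
    refine (l1_le_supd p.1).trans ?_
    unfold NN
    exact Nat.mul_le_mul_left d (hp.trans (need_le d _))
  refine ⟨FF G, ⟨?_, ?_, ?_, ?_⟩, fun y => NN d (expand G y), (measurable_NN d).comp hE, hdet, ?_⟩
  · exact measurable_pi_lambda _ fun x => (measurable_Fc (sc d) x).comp hE
  · intro v y
    funext x
    unfold FF
    rw [expand_shift, Fc_cshift]
    rfl
  · filter_upwards [hdet] with y hy
    exact ⟨_, hy⟩
  · filter_upwards [hset] with y hy u v huv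
    exact col_proper (oo_h1 _ _) (oo_h2 _ _) (oo_h3 _ _) hy huv
  · intro α h0 h1
    have hg : Measurable fun ω : Cfg d => ((NN d ω : ℕ) : ℝ≥0∞) ^ α := by
      have h1 : Measurable fun n : ℕ => ((n : ℕ) : ℝ≥0∞) ^ α := Measurable.of_discrete
      exact h1.comp (measurable_NN d)
    have := hmp.lintegral_comp hg
    rw [this]
    exact moment_NN d h0 h1

end Pool.Agent.FFIID
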