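import Mathlib
import Pool.Agent.Lib_helper92.FFIID.Curl

/-!
# The lower tail bound for the coding radius: height differences are boundary terms
-/

open MeasureTheory Finset
open scoped ENNReal

namespace Pool.Agent.FFIID

section Local

variable {d : ℕ} {E : Type*}

/-- `g` only depends on the labels in the sup-norm ball of radius `m`. -/
def IsLocal (m : ℕ) (g : (Site d → E) → Fin 3) : Prop :=
  ∀ y y' : Site d → E, (∀ u : Site d, (∀ a, |u a| ≤ m) → y u = y' u) → g y = g y'

lemma IsLocal.shift_congr {m : ℕ} {g : (Site d → E) → Fin 3} (h : IsLocal m g) (v : Site d)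
    {y y' : Site d → E} (hy : ∀ u : Site d, (∀ a, |u a - v a| ≤ m) → y u = y' u) :
    g (shift v y) = g (shift v y') := by
  refine h _ _ fun u hu => ?_
  unfold shift
  exact hy _ fun a => by simpa using hu a

/-- first coordinate -/
def i0 (hd : 2 ≤ d) : Fin d := ⟨0, by omega⟩
/-- second coordinate -/
def i1 (hd : 2 ≤ d) : Fin d := ⟨1, by omega⟩

lemma pt_i0 (hd : 2 ≤ d) (i j : ℤ) : (pt i j : Site d) (i0 hd) = i := by simp [pt, i0]
lemma pt_i1 (hd : 2 ≤ d) (i j : ℤ) : (pt i j : Site d) (i1 hd) = j := by simp [pt, i1]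

lemma hs_local (hd : 2 ≤ d) {m : ℕ} {g : (Site d → E) → Fin 3} (h : IsLocal m g) (a j : ℕ)
    {y y' : Site d → E}
    (hy : ∀ u : Site d, |u (i1 hd) - j| ≤ m → -(m : ℤ) ≤ u (i0 hd) → u (i0 hd) ≤ a + m →
      y u = y' u) : hs g y a j = hs g y' a j := by
  unfold hs
  refine sum_congr rfl fun k hk => ?_
  have hk' := mem_range.1 hk
  have key : ∀ l : ℤ, 0 ≤ l → l ≤ a → g (shift (pt l j) y) = g (shift (pt l j) y') := by
    intro l hl0 hla
    refine h.shift_congr _ fun u hu => hy u ?_ ?_ ?_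
    · have := hu (i1 hd); rwa [pt_i1] at this
    · have := hu (i0 hd); rw [pt_i0, abs_le] at this; omega
    · have := hu (i0 hd); rw [pt_i0, abs_le] at this; omega
  rw [key k (by positivity) (by exact_mod_cast hk'.le), key (k + 1) (by positivity)
    (by exact_mod_cast hk')]

lemma vs_local (hd : 2 ≤ d) {m : ℕ} {g : (Site d → E) → Fin 3} (h : IsLocal m g) (i b : ℕ)
    {y y' : Site d → E}
    (hy : ∀ u : Site d, |u (i0 hd) - i| ≤ m → y u = y' u) : vs g y i b = vs g y' i b := by
  unfold vs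
  refine sum_congr rfl fun k hk => ?_
  have key : ∀ l : ℤ, g (shift (pt i l) y) = g (shift (pt i l) y') := by
    intro l
    refine h.shift_congr _ fun u hu => hy u ?_
    have := hu (i0 hd); rwa [pt_i0] at this
  rw [key k, key (k + 1)]

lemma hs_congr {c g : (Site d → E) → Fin 3} {y : Site d → E} {a j : ℕ}
    (h : ∀ k ≤ a, c (shift (pt (k : ℕ) j) y) = g (shift (pt (k : ℕ) j) y)) :
    hs c y a j = hs g y a j := by
  unfold hs
  refine sum_congr rfl fun k hk => ?_
  have hk' := mem_range.1 hk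
  have h1 := h k hk'.le
  have h2 := h (k + 1) hk'
  push_cast at h2
  rw [h1, h2]

lemma vs_congr {c g : (Site d → E) → Fin 3} {y : Site d → E} {i b : ℕ}
    (h : ∀ k ≤ b, c (shift (pt i (k : ℕ)) y) = g (shift (pt i (k : ℕ)) y)) :
    vs c y i b = vs g y i b := by
  unfold vs
  refine sum_congr rfl fun k hk => ?_
  have hk' := mem_range.1 hk
  have h1 := h k hk'.le
  have h2 := h (k + 1) hk'
  push_cast at h2
  rw [h1, h2]

end Local

section Core

variable {d : ℕ} {E : Type*} [MeasurableSpace E] (ν : Measure E) [IsProbabilityMeasure ν]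

lemma exists_notMem_of_lt_one {Ω : Type*} [MeasurableSpace Ω] {μ : Measure Ω}
    [IsProbabilityMeasure μ] {B : Set Ω} (h : μ B < 1) : ∃ y, y ∉ B := by
  by_contra hcon
  push Not at hcon
  have : B = Set.univ := Set.eq_univ_of_forall hcon
  rw [this, measure_univ] at h
  exact lt_irrefl _ h

/-- hypotheses shared by the lemmas of this section -/
structure Setup (hd : 2 ≤ d) (c g : (Site d → E) → Fin 3) (m : ℕ) (q : ℝ≥0∞) : Prop where
  hc : Measurable c
  hg : Measurable g
  hm : 1 ≤ m
  hloc : IsLocal m g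
  hq : iid d ν {y | c y ≠ g y} ≤ q
  hprop : ∀ᵐ y ∂(iid d ν), ∀ i j : ℕ, c (shift (pt i j) y) ≠ c (shift (pt (i + 1) j) y) ∧
      c (shift (pt i j) y) ≠ c (shift (pt i (j + 1)) y)

variable {ν} {hd : 2 ≤ d} {c g : (Site d → E) → Fin 3} {m : ℕ} {q : ℝ≥0∞}

omit [IsProbabilityMeasure ν] in
lemma Setup.bad_meas (H : Setup ν hd c g m q) : MeasurableSet {y | c y ≠ g y} :=
  (measurableSet_eq_fun H.hc H.hg).compl

lemma Setup.bad_shift (H : Setup ν hd c g m q) (v : Site d) :
    iid d ν {y | c (shift v y) ≠ g (shift v y)} ≤ q := by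
  have h := (measurePreserving_shift ν v).measure_preimage H.bad_meas.nullMeasurableSet
  calc iid d ν {y | c (shift v y) ≠ g (shift v y)} = _ := h
    _ ≤ q := H.hq

/-- the bad event along a finite family of sites -/
lemma Setup.bad_family (H : Setup ν hd c g m q) (f : ℕ → Site d) (a : ℕ) :
    iid d ν {y | ∃ k ≤ a, c (shift (f k) y) ≠ g (shift (f k) y)} ≤ (a + 1) * q := by
  have : {y | ∃ k ≤ a, c (shift (f k) y) ≠ g (shift (f k) y)} ⊆
      ⋃ k ∈ range (a + 1), {y | c (shift (f k) y) ≠ g (shift (f k) y)} := by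
    rintro y ⟨k, hk, hy⟩
    simp only [Set.mem_iUnion, mem_range]
    exact ⟨k, by omega, hy⟩
  calc _ ≤ iid d ν (⋃ k ∈ range (a + 1), {y | c (shift (f k) y) ≠ g (shift (f k) y)}) :=
        measure_mono this
    _ ≤ ∑ k ∈ range (a + 1), iid d ν {y | c (shift (f k) y) ≠ g (shift (f k) y)} :=
        measure_biUnion_finset_le _ _
    _ ≤ ∑ k ∈ range (a + 1), q := sum_le_sum fun k _ => H.bad_shift _
    _ = (a + 1) * q := by simp

lemma Setup.selection_one (H : Setup ν hd c g m q) :
    ∃ α β : (Site d → E) → ℤ, Measurable α ∧ Measurable β ∧ (∀ y, |α y| ≤ 4 * m) ∧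
      (∀ y, Even (α y)) ∧
      (∀ y y' : Site d → E, (∀ u : Site d, |u (i0 hd)| ≤ m → y u = y' u) → α y = α y') ∧
      (∀ y y' : Site d → E, (∀ u : Site d, |u (i0 hd) - 4 * m| ≤ m → y u = y' u) →
        β y = β y') ∧
      iid d ν {y | hs c y (4 * m) 0 ≠ β y - α y} ≤ 5 * (4 * m + 1) * q := by
  set n := 4 * m with hn
  have hm := H.hm
  set B : Set (Site d → E) := {y | hs g y n 0 + vs g y n n ≠ vs g y 0 n + hs g y n n} with hB
  have hBm : MeasurableSet B :=
    (measurableSet_eq_fun ((measurable_hs H.hg _ _).add (measurable_vs H.hg _ _))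
      ((measurable_vs H.hg _ _).add (measurable_hs H.hg _ _))).compl
  have hBle : iid d ν B ≤ 4 * (n + 1) * q := by
    have hsub : B ⊆ {y | ¬ ∀ i j : ℕ, c (shift (pt i j) y) ≠ c (shift (pt (i + 1) j) y) ∧
        c (shift (pt i j) y) ≠ c (shift (pt i (j + 1)) y)} ∪
        ({y | ∃ k ≤ n, c (shift (pt (k : ℕ) (0 : ℕ)) y) ≠ g (shift (pt (k : ℕ) (0 : ℕ)) y)} ∪
        ({y | ∃ k ≤ n, c (shift (pt (n : ℕ) (k : ℕ)) y) ≠ g (shift (pt (n : ℕ) (k : ℕ)) y)} ∪
        ({y | ∃ k ≤ n, c (shift (pt (0 : ℕ) (k : ℕ)) y) ≠ g (shift (pt (0 : ℕ) (k : ℕ)) y)} ∪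
        {y | ∃ k ≤ n, c (shift (pt (k : ℕ) (n : ℕ)) y) ≠
          g (shift (pt (k : ℕ) (n : ℕ)) y)}))) := by
      intro y hy
      by_contra hcon
      simp only [Set.mem_union, Set.mem_ofPred_eq, not_or, not_exists, not_and, not_not] at hcon
      obtain ⟨h0, h1, h2, h3, h4⟩ := hcon
      apply hy
      rw [← hs_congr h1, ← vs_congr h2, ← vs_congr h3, ← hs_congr h4]
      exact curl_eq c y n n h0
    refine (measure_mono hsub).trans ?_
    refine (measure_union_le _ _).trans ?_
    rw [show iid d ν {y | ¬ ∀ i j : ℕ, c (shift (pt i j) y) ≠ c (shift (pt (i + 1) j) y) ∧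
        c (shift (pt i j) y) ≠ c (shift (pt i (j + 1)) y)} = 0 from H.hprop, zero_add]
    refine (measure_union_le _ _).trans ?_
    refine (add_le_add (H.bad_family (fun k => pt (k : ℕ) (0 : ℕ)) n)
      ((measure_union_le _ _).trans (add_le_add (H.bad_family (fun k => pt (n : ℕ) (k : ℕ)) n)
        ((measure_union_le _ _).trans (add_le_add
          (H.bad_family (fun k => pt (0 : ℕ) (k : ℕ)) n)
          (H.bad_family (fun k => pt (k : ℕ) (n : ℕ)) n)))))).trans ?_
    apply le_of_eq; ring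
  obtain ⟨z, hz⟩ := exists_splice_le ν {u : Site d | |u (i1 hd)| ≤ m} hBm
  set S : Set (Site d) := {u : Site d | |u (i1 hd)| ≤ m} with hS
  refine ⟨fun y => -vs g (splice S y z) 0 n, fun y => hs g z n n - vs g (splice S y z) n n,
    ((measurable_vs H.hg _ _).comp (measurable_splice_left S z)).neg,
    ((measurable_vs H.hg _ _).comp (measurable_splice_left S z)).const_sub _, ?_, ?_, ?_, ?_, ?_⟩
  · intro y
    rw [abs_neg]
    have := vs_abs_le g (splice S y z) 0 n
    rw [hn] at this ⊢
    push_cast at this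
    exact this
  · intro y
    have h := vs_even_sub g (splice S y z) 0 n
    have h2 : Even (n : ℤ) := by rw [hn]; exact ⟨2 * m, by push_cast; ring⟩
    have := (h.add h2).neg
    simpa using this
  · intro y y' hyy
    simp only [neg_inj]
    refine vs_local hd H.hloc _ _ fun u hu => ?_
    by_cases huS : u ∈ S
    · rw [splice_of_mem huS, splice_of_mem huS]
      exact hyy u (by simpa using hu)
    · rw [splice_of_notMem huS, splice_of_notMem huS]
  · intro y y' hyy
    simp only [sub_right_inj]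
    refine vs_local hd H.hloc _ _ fun u hu => ?_
    by_cases huS : u ∈ S
    · rw [splice_of_mem huS, splice_of_mem huS]
      exact hyy u (by rw [hn] at hu; push_cast at hu; exact hu)
    · rw [splice_of_notMem huS, splice_of_notMem huS]
  · have hsub : {y | hs c y n 0 ≠ hs g z n n - vs g (splice S y z) n n -
        -vs g (splice S y z) 0 n} ⊆ {y | splice S y z ∈ B} ∪
        {y | ∃ k ≤ n, c (shift (pt (k : ℕ) (0 : ℕ)) y) ≠ g (shift (pt (k : ℕ) (0 : ℕ)) y)} := by
      intro y hy
      by_contra hcon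
      simp only [Set.mem_union, Set.mem_ofPred_eq, not_or, not_exists, not_and, not_not] at hcon
      obtain ⟨h1, h2⟩ := hcon
      apply hy
      rw [hB] at h1
      simp only [Set.mem_ofPred_eq, ne_eq, not_not] at h1
      have e1 : hs g (splice S y z) n 0 = hs g y n 0 := by
        refine hs_local hd H.hloc _ _ fun u hu _ _ => splice_of_mem ?_
        simpa [hS] using hu
      have e2 : hs g (splice S y z) n n = hs g z n n := by
        refine hs_local hd H.hloc _ _ fun u hu _ _ => splice_of_notMem ?_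
        rw [hS, Set.mem_ofPred_eq]
        rw [hn] at hu
        push_cast at hu
        rw [abs_le] at hu ⊢
        omega
      rw [hs_congr h2]
      rw [e1, e2] at h1
      linarith
    refine (measure_mono hsub).trans ((measure_union_le _ _).trans ?_)
    refine (add_le_add (hz.trans hBle) (H.bad_family (fun k => pt (k : ℕ) (0 : ℕ)) n)).trans ?_
    apply le_of_eq
    rw [hn]; push_cast; ring

end Core

end Pool.Agent.FFIID
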