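import Mathlib
import Pool.Agent.Lib_helper92.FFIID.Upper

/-!
# The lower tail bound for the coding radius: height differences are a coboundary plus constants
-/

open MeasureTheory Finset
open scoped ENNReal

namespace Pool.Agent.FFIID

section Core

variable {d : ℕ} {E : Type*} [MeasurableSpace E] {ν : Measure E} [IsProbabilityMeasure ν]
variable {hd : 2 ≤ d} {c g : (Site d → E) → Fin 3} {m : ℕ} {q : ℝ≥0∞}

lemma shift_meas_preimage (v : Site d) {B : Set (Site d → E)} (hB : MeasurableSet B) :
    iid d ν {y | shift v y ∈ B} = iid d ν B :=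
  (measurePreserving_shift ν v).measure_preimage hB.nullMeasurableSet

omit [MeasurableSpace E] in
lemma hs_shift_pt (g : (Site d → E) → Fin 3) (y : Site d → E) (a b : ℕ) :
    hs g (shift (pt a 0) y) b 0 + hs g y a 0 = hs g y b 0 + hs g (shift (pt b 0) y) a 0 := by
  rw [← hs_add, add_comm (hs g (shift (pt a 0) y) b 0), ← hs_add, add_comm]

/-- The output of the first selection: `α` with its properties, at scale `m`. -/
structure Cob (ν : Measure E) (c : (Site d → E) → Fin 3) (m : ℕ) (δ : ℝ≥0∞)
    (α : (Site d → E) → ℤ) (k : ℕ → ℤ) : Prop where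
  meas : Measurable α
  bd : ∀ y, |α y| ≤ 4 * m
  even : ∀ y, Even (α y)
  bound : ∀ K ≤ m, iid d ν {y | hs c y K 0 ≠ α (shift (pt K 0) y) - α y + k K} ≤ δ

lemma Setup.selection_two (H : Setup ν hd c g m q) :
    ∃ (α : (Site d → E) → ℤ) (k : ℕ → ℤ), Cob ν c m (56 * m * q) α k ∧
      ∀ y y' : Site d → E, (∀ u : Site d, |u (i0 hd)| ≤ m → y u = y' u) → α y = α y' := by
  obtain ⟨α, β, hα, hβ, hαb, hαe, hαl, hβl, hB1⟩ := H.selection_one
  have hm := H.hm
  have key : ∀ K : ℕ, ∃ cK : ℤ, K ≤ m →
      iid d ν {y | hs c y K 0 ≠ α (shift (pt K 0) y) - α y + cK} ≤ 56 * m * q := by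
    intro K
    by_cases hK : K ≤ m
    swap
    · exact ⟨0, fun h => absurd h hK⟩
    set n := 4 * m with hn
    -- the bad event
    set B : Set (Site d → E) := {y | hs g y K 0 + α y - α (shift (pt K 0) y) ≠
      hs g (shift (pt n 0) y) K 0 + β y - β (shift (pt K 0) y)} with hB
    have hBm : MeasurableSet B := by
      refine (measurableSet_eq_fun ?_ ?_).compl
      · exact ((measurable_hs H.hg _ _).add hα).sub (hα.comp (measurable_shift _))
      · exact (((measurable_hs H.hg _ _).comp (measurable_shift _)).add hβ).sub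
          (hβ.comp (measurable_shift _))
    set B1 : Set (Site d → E) := {y | hs c y n 0 ≠ β y - α y} with hB1def
    have hB1m : MeasurableSet B1 :=
      (measurableSet_eq_fun (measurable_hs H.hc _ _) (hβ.sub hα)).compl
    have hBle : iid d ν B ≤ (10 * (n + 1) + 2 * (K + 1)) * q := by
      have hsub : B ⊆ B1 ∪ ({y | shift (pt K 0) y ∈ B1} ∪
          ({y | ∃ k ≤ K, c (shift (pt (k : ℕ) (0 : ℕ)) y) ≠ g (shift (pt (k : ℕ) (0 : ℕ)) y)} ∪
           {y | ∃ k ≤ K, c (shift (pt (k + n : ℕ) (0 : ℕ)) y) ≠
            g (shift (pt (k + n : ℕ) (0 : ℕ)) y)})) := by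
        intro y hy
        by_contra hcon
        simp only [Set.mem_union, Set.mem_ofPred_eq, not_or, not_exists, not_and, not_not] at hcon
        obtain ⟨h1, h2, h3, h4⟩ := hcon
        apply hy
        rw [hB1def] at h1 h2
        simp only [Set.mem_ofPred_eq, ne_eq, not_not] at h1 h2
        have e1 : hs g y K 0 = hs c y K 0 := (hs_congr h3).symm
        have e2 : hs g (shift (pt n 0) y) K 0 = hs c (shift (pt n 0) y) K 0 := by
          symm
          apply hs_congr
          intro k hk
          have := h4 k hk
          rw [shift_shift, pt_add]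
          push_cast at this ⊢
          simpa using this
        have e3 := hs_shift_pt c y n K
        rw [e1, e2]
        linarith
      refine (measure_mono hsub).trans ?_
      refine (measure_union_le _ _).trans ?_
      refine (add_le_add hB1 ((measure_union_le _ _).trans (add_le_add
        ((shift_meas_preimage _ hB1m).le.trans hB1) ((measure_union_le _ _).trans (add_le_add
          (H.bad_family (fun k => pt (k : ℕ) (0 : ℕ)) K)
          (H.bad_family (fun k => pt (k + n : ℕ) (0 : ℕ)) K)))))).trans ?_
      apply le_of_eq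
      rw [hn]; push_cast; ring
    obtain ⟨z, hz⟩ := exists_splice_le ν {u : Site d | u (i0 hd) ≤ 2 * m} hBm
    set S : Set (Site d) := {u : Site d | u (i0 hd) ≤ 2 * m} with hS
    refine ⟨hs g (shift (pt n 0) z) K 0 + β z - β (shift (pt K 0) z), fun _ => ?_⟩
    have hsub : {y | hs c y K 0 ≠ α (shift (pt K 0) y) - α y +
        (hs g (shift (pt n 0) z) K 0 + β z - β (shift (pt K 0) z))} ⊆
        {y | splice S y z ∈ B} ∪
        {y | ∃ k ≤ K, c (shift (pt (k : ℕ) (0 : ℕ)) y) ≠ g (shift (pt (k : ℕ) (0 : ℕ)) y)} := by
      intro y hy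
      by_contra hcon
      simp only [Set.mem_union, Set.mem_ofPred_eq, not_or, not_exists, not_and, not_not] at hcon
      obtain ⟨h1, h2⟩ := hcon
      apply hy
      rw [hB] at h1
      simp only [Set.mem_ofPred_eq, ne_eq, not_not] at h1
      have hmK : (K : ℤ) ≤ m := by exact_mod_cast hK
      have hm1 : (1 : ℤ) ≤ m := by exact_mod_cast hm
      have e1 : hs g (splice S y z) K 0 = hs g y K 0 := by
        refine hs_local hd H.hloc _ _ fun u _ _ hu => splice_of_mem ?_
        rw [hS, Set.mem_ofPred_eq]
        linarith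
      have e2 : α (splice S y z) = α y := by
        refine hαl _ _ fun u hu => splice_of_mem ?_
        rw [hS, Set.mem_ofPred_eq]
        rw [abs_le] at hu
        linarith
      have e3 : α (shift (pt K 0) (splice S y z)) = α (shift (pt K 0) y) := by
        refine hαl _ _ fun u hu => ?_
        unfold shift
        refine splice_of_mem ?_
        rw [hS, Set.mem_ofPred_eq, Pi.add_apply, pt_i0]
        rw [abs_le] at hu
        linarith
      have e4 : hs g (shift (pt n 0) (splice S y z)) K 0 = hs g (shift (pt n 0) z) K 0 := by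
        refine hs_local hd H.hloc _ _ fun u _ hu _ => ?_
        unfold shift
        refine splice_of_notMem ?_
        rw [hS, Set.mem_ofPred_eq, Pi.add_apply, pt_i0, hn]
        push_cast
        linarith
      have e5 : β (splice S y z) = β z := by
        refine hβl _ _ fun u hu => splice_of_notMem ?_
        rw [hS, Set.mem_ofPred_eq]
        rw [abs_le] at hu
        linarith
      have e6 : β (shift (pt K 0) (splice S y z)) = β (shift (pt K 0) z) := by
        refine hβl _ _ fun u hu => ?_
        unfold shift
        refine splice_of_notMem ?_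
        rw [hS, Set.mem_ofPred_eq, Pi.add_apply, pt_i0]
        rw [abs_le] at hu
        have : (0 : ℤ) ≤ K := by positivity
        linarith
      rw [hs_congr h2]
      rw [e1, e2, e3, e4, e5, e6] at h1
      linarith
    refine (measure_mono hsub).trans ((measure_union_le _ _).trans ?_)
    refine (add_le_add (hz.trans hBle) (H.bad_family (fun k => pt (k : ℕ) (0 : ℕ)) K)).trans ?_
    rw [← add_mul]
    gcongr
    have : 10 * (4 * m + 1) + 2 * (K + 1) + (K + 1) ≤ 56 * m := by omega
    rw [hn]
    exact_mod_cast this
  choose k hk using key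
  exact ⟨α, k, ⟨hα, hαb, hαe, fun K hK => hk K hK⟩, hαl⟩

end Core

end Pool.Agent.FFIID
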