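import Mathlib
import Pool.Agent.Lib_helper92.FFIID.Upper2

/-!
# The lower tail bound for the coding radius: slopes are extreme, counting, contradiction
-/

open MeasureTheory Finset
open scoped ENNReal

namespace Pool.Agent.FFIID

section Core

variable {d : ℕ} {E : Type*} [MeasurableSpace E] {ν : Measure E} [IsProbabilityMeasure ν]
variable {hd : 2 ≤ d} {c g : (Site d → E) → Fin 3} {m : ℕ} {q δ : ℝ≥0∞}
variable {α : (Site d → E) → ℤ} {k : ℕ → ℤ}

/-- The horizontal increment at the origin. -/
def inc0 (c : (Site d → E) → Fin 3) (y : Site d → E) : ℤ := inc (c y) (c (shift (pt 1 0) y))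

omit [MeasurableSpace E] in
lemma hs_one (c : (Site d → E) → Fin 3) (y : Site d → E) : hs c y 1 0 = inc0 c y := by
  simp [hs, inc0, pt_zero, shift_zero']

omit [MeasurableSpace E] in
lemma hs_succ (c : (Site d → E) → Fin 3) (y : Site d → E) (K : ℕ) :
    hs c y (K + 1) 0 = hs c y K 0 + inc0 c (shift (pt K 0) y) := by
  rw [hs_add, hs_one]

omit [MeasurableSpace E] in
lemma hs_eq_sum (c : (Site d → E) → Fin 3) (y : Site d → E) (n : ℕ) :
    hs c y n 0 = ∑ k ∈ range n, inc0 c (shift (pt k 0) y) := by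
  induction n with
  | zero => simp [hs]
  | succ n ih => rw [hs_succ, sum_range_succ, ih]

omit [MeasurableSpace E] in
lemma inc0_eq_or (c : (Site d → E) → Fin 3) (y : Site d → E) : inc0 c y = 1 ∨ inc0 c y = -1 :=
  inc_eq_or _ _

/-- bad event of the coboundary relation -/
def badSet (c : (Site d → E) → Fin 3) (α : (Site d → E) → ℤ) (n : ℕ) (κ : ℤ) :
    Set (Site d → E) := {y | hs c y n 0 ≠ α (shift (pt n 0) y) - α y + κ}

lemma measurableSet_badSet (hc : Measurable c) (hα : Measurable α) (n : ℕ) (κ : ℤ) :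
    MeasurableSet (badSet c α n κ) :=
  (measurableSet_eq_fun (measurable_hs hc _ _)
    (((hα.comp (measurable_shift _)).sub hα).add_const _)).compl

lemma Cob.odd_one (H : Cob ν c m δ α k) (hm : 1 ≤ m) (hδ : δ < 1) : Odd (k 1) := by
  obtain ⟨y, hy⟩ := exists_notMem_of_lt_one (lt_of_le_of_lt (H.bound 1 hm) hδ)
  simp only [Set.mem_ofPred_eq, ne_eq, not_not] at hy
  rw [hs_one] at hy
  have h1 : Odd (inc0 c y) := inc_odd _ _
  have h2 := H.even y
  have h3 := H.even (shift (pt (1 : ℕ) 0) y)
  have : k 1 = inc0 c y - (α (shift (pt (1 : ℕ) 0) y) - α y) := by rw [hy]; ring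
  rw [this]
  exact h1.sub_even (h3.sub h2)

omit [IsProbabilityMeasure ν] in
lemma Cob.bound' (H : Cob ν c m δ α k) {K : ℕ} (hK : K ≤ m) :
    iid d ν (badSet c α K (k K)) ≤ δ := H.bound K hK

lemma Cob.succ (H : Cob ν c m δ α k) (hc : Measurable c) (hm : 1 ≤ m) (hδ : 3 * δ < 1) {K : ℕ}
    (hK : K + 1 ≤ m) : k (K + 1) = k K + k 1 := by
  have hle : iid d ν (badSet c α (K + 1) (k (K + 1)) ∪ (badSet c α K (k K) ∪
      {y | shift (pt K 0) y ∈ badSet c α 1 (k 1)})) < 1 := by
    refine lt_of_le_of_lt ((measure_union_le _ _).trans (add_le_add (H.bound' hK)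
      ((measure_union_le _ _).trans (add_le_add (H.bound' (by omega))
        ((shift_meas_preimage _ (measurableSet_badSet hc H.meas _ _)).le.trans
          (H.bound' hm)))))) ?_
    calc δ + (δ + δ) = 3 * δ := by ring
      _ < 1 := hδ
  obtain ⟨y, hy⟩ := exists_notMem_of_lt_one hle
  simp only [Set.mem_union, Set.mem_ofPred_eq, not_or, badSet, ne_eq, not_not] at hy
  obtain ⟨h1, h2, h3⟩ := hy
  rw [shift_shift, pt_add, hs_one] at h3
  rw [hs_succ] at h1
  have e : (pt ((1 : ℕ) + (K : ℤ)) (0 + 0) : Site d) = pt ((K + 1 : ℕ) : ℤ) 0 := by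
    push_cast; rw [add_comm]
  rw [e] at h3
  linarith

lemma Cob.mul (H : Cob ν c m δ α k) (hc : Measurable c) (hm : 1 ≤ m) (hδ : 3 * δ < 1) {K : ℕ}
    (hK1 : 1 ≤ K) (hK : K ≤ m) : k K = K * k 1 := by
  induction K, hK1 using Nat.le_induction with
  | base => simp
  | succ K hK1 ih =>
    rw [H.succ hc hm hδ hK, ih (by omega)]
    push_cast; ring

lemma Cob.iter (H : Cob ν c m δ α k) (hc : Measurable c) (j : ℕ) :
    iid d ν (badSet c α (j * m) (j * k m)) ≤ j * δ := by
  induction j with
  | zero =>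
    have : badSet c α (0 * m) ((0 : ℕ) * k m) = (∅ : Set (Site d → E)) := by
      ext y
      simp [badSet, hs, pt_zero, shift_zero']
    rw [this]; simp
  | succ j ih =>
    have hsub : badSet c α ((j + 1) * m) ((j + 1 : ℕ) * k m) ⊆ badSet c α (j * m) (j * k m) ∪
        {y | shift (pt (j * m : ℕ) 0) y ∈ badSet c α m (k m)} := by
      intro y hy
      by_contra hcon
      simp only [Set.mem_union, Set.mem_ofPred_eq, not_or, badSet, ne_eq, not_not] at hcon
      obtain ⟨h1, h2⟩ := hcon
      apply hy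
      rw [shift_shift, pt_add] at h2
      have e : (pt ((m : ℤ) + ((j * m : ℕ) : ℤ)) (0 + 0) : Site d) =
          pt (((j + 1) * m : ℕ) : ℤ) 0 := by
        congr 1
        push_cast; ring
      rw [e] at h2
      have e2 : (j + 1) * m = j * m + m := by ring
      rw [show hs c y ((j + 1) * m) 0 = hs c y (j * m + m) 0 by rw [e2], hs_add, h1, h2]
      push_cast; ring
    refine (measure_mono hsub).trans ((measure_union_le _ _).trans ?_)
    refine (add_le_add ih ((shift_meas_preimage _ (measurableSet_badSet hc H.meas _ _)).le.trans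
      (H.bound' le_rfl))).trans ?_
    apply le_of_eq
    push_cast; ring

lemma Cob.iter' (H : Cob ν c m δ α k) (hc : Measurable c) (hm : 1 ≤ m) (hδ : 3 * δ < 1)
    (J : ℕ) : iid d ν (badSet c α (J * m) ((J * m : ℕ) * k 1)) ≤ J * δ := by
  have h := H.iter hc J
  rw [H.mul hc hm hδ hm le_rfl] at h
  convert h using 3
  push_cast; ring

lemma Cob.slope (H : Cob ν c m δ α k) (hc : Measurable c) (hm : 1 ≤ m) {J : ℕ} (hJ : 5 ≤ J)
    (hδ : J * δ < 1) : k 1 = 1 ∨ k 1 = -1 := by
  have h3 : 3 * δ < 1 := lt_of_le_of_lt (by gcongr; exact_mod_cast (by omega : 3 ≤ J)) hδ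
  have h1 : δ < 1 := lt_of_le_of_lt (by
    calc δ = 1 * δ := by simp
      _ ≤ 3 * δ := by gcongr; norm_num) h3
  have hodd := H.odd_one hm h1
  obtain ⟨y, hy⟩ := exists_notMem_of_lt_one (lt_of_le_of_lt (H.iter' hc hm h3 J) hδ)
  simp only [badSet, Set.mem_ofPred_eq, ne_eq, not_not] at hy
  have b1 := hs_abs_le c y (J * m) 0
  have b2 := H.bd y
  have b3 := H.bd (shift (pt ((J * m : ℕ) : ℤ) 0) y)
  have hm' : (1 : ℤ) ≤ m := by exact_mod_cast hm
  have hJ' : (5 : ℤ) ≤ J := by exact_mod_cast hJ
  rw [hy] at b1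
  rw [abs_le] at b1 b2 b3
  push_cast at b1 b3
  have hle : k 1 < 3 := by
    by_contra hcon
    push Not at hcon
    have : (J : ℤ) * m * 3 ≤ J * m * k 1 := by gcongr
    have h5 : (5 : ℤ) * m ≤ J * m := by gcongr
    nlinarith
  have hge : -3 < k 1 := by
    by_contra hcon
    push Not at hcon
    have : (J : ℤ) * m * k 1 ≤ J * m * (-3) := by
      apply mul_le_mul_of_nonneg_left hcon; positivity
    have h5 : (5 : ℤ) * m ≤ J * m := by gcongr
    nlinarith
  obtain ⟨r, hr⟩ := hodd
  omega

omit [MeasurableSpace E] in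
open scoped Classical in
lemma hs_count (c : (Site d → E) → Fin 3) (y : Site d → E) (n : ℕ) {σ : ℤ}
    (hσ : σ = 1 ∨ σ = -1) : hs c y n 0 =
      σ * (n - 2 * (((range n).filter fun k => inc0 c (shift (pt (k : ℕ) 0) y) ≠ σ).card : ℤ)) := by
  rw [hs_eq_sum, Finset.card_filter]
  induction n with
  | zero => simp
  | succ n ih =>
    rw [sum_range_succ, ih, sum_range_succ]
    have h1 := inc0_eq_or c (shift (pt (n : ℕ) 0) y)
    push_cast
    by_cases h : inc0 c (shift (pt (n : ℕ) 0) y) = σ
    · simp [h]; ring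
    · simp only [ne_eq, h, not_false_eq_true, if_true]
      have : inc0 c (shift (pt (n : ℕ) 0) y) = -σ := by
        rcases h1 with h1 | h1 <;> rcases hσ with hσ | hσ <;> simp_all
      rw [this]; ring

lemma measurable_inc0 (hc : Measurable c) : Measurable (inc0 c) := by
  have := measurable_hs hc 1 0
  simpa only [hs_one] using this

lemma Cob.count (H : Cob ν c m δ α k) (hc : Measurable c) (hm : 1 ≤ m) {J : ℕ} (hJ : 5 ≤ J)
    (hδ : J * δ < 1) : J * iid d ν {y | inc0 c y ≠ k 1} ≤ 4 + J ^ 2 * δ := by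
  classical
  have h3 : 3 * δ < 1 := lt_of_le_of_lt (by gcongr; exact_mod_cast (by omega : 3 ≤ J)) hδ
  have hσ := H.slope hc hm hJ hδ
  set σ := k 1 with hσdef
  set n := J * m with hn
  have hbad := H.iter' hc hm h3 J
  rw [← hσdef, ← hn] at hbad
  have hmeasD : MeasurableSet {y | inc0 c y ≠ σ} :=
    (measurable_inc0 hc (measurableSet_singleton σ)).compl
  have hmeasB : MeasurableSet (badSet c α n ((n : ℕ) * σ)) := measurableSet_badSet hc H.meas _ _
  -- the integral of the count
  have hint : ∫⁻ y, ∑ k ∈ range n, ({y | inc0 c (shift (pt (k : ℕ) 0) y) ≠ σ}.indicator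
      (fun _ => (1 : ℝ≥0∞)) y) ∂(iid d ν) = n * iid d ν {y | inc0 c y ≠ σ} := by
    rw [lintegral_finset_sum]
    · have : ∀ k ∈ range n, ∫⁻ y, ({y | inc0 c (shift (pt (k : ℕ) 0) y) ≠ σ}.indicator
          (fun _ => (1 : ℝ≥0∞)) y) ∂(iid d ν) = iid d ν {y | inc0 c y ≠ σ} := by
        intro k _
        have hmk : MeasurableSet {y : Site d → E | inc0 c (shift (pt (k : ℕ) 0) y) ≠ σ} :=
          measurable_shift _ hmeasD
        rw [lintegral_indicator hmk]
        simp only [lintegral_const, MeasurableSet.univ, Measure.restrict_apply, Set.univ_inter,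
          one_mul]
        exact shift_meas_preimage _ hmeasD
      rw [sum_congr rfl this]; simp
    · intro k _
      exact measurable_const.indicator (measurable_shift _ hmeasD)
  have hle : ∫⁻ y, ∑ k ∈ range n, ({y | inc0 c (shift (pt (k : ℕ) 0) y) ≠ σ}.indicator
      (fun _ => (1 : ℝ≥0∞)) y) ∂(iid d ν) ≤ 4 * m + n * (J * δ) := by
    calc _ ≤ ∫⁻ y, (4 * m + (badSet c α n ((n : ℕ) * σ)).indicator (fun _ => (n : ℝ≥0∞)) y)
          ∂(iid d ν) := by
          refine lintegral_mono fun y => ?_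
          have hcard : ∑ k ∈ range n, ({y | inc0 c (shift (pt (k : ℕ) 0) y) ≠ σ}.indicator
              (fun _ => (1 : ℝ≥0∞)) y) =
              (((range n).filter fun k => inc0 c (shift (pt (k : ℕ) 0) y) ≠ σ).card : ℝ≥0∞) := by
            rw [Finset.card_filter]
            push_cast
            refine sum_congr rfl fun k _ => ?_
            simp only [Set.indicator, Set.mem_ofPred_eq]
          rw [hcard]
          by_cases hy : y ∈ badSet c α n ((n : ℕ) * σ)
          · rw [Set.indicator_of_mem hy]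
            have : (((range n).filter fun k => inc0 c (shift (pt (k : ℕ) 0) y) ≠ σ).card : ℝ≥0∞)
                ≤ n := by
              exact_mod_cast (card_filter_le _ _).trans (card_range n).le
            exact this.trans le_add_self
          · rw [Set.indicator_of_notMem hy, add_zero]
            simp only [badSet, Set.mem_ofPred_eq, ne_eq, not_not] at hy
            have hc1 := hs_count c y n hσ
            have b2 := H.bd y
            have b3 := H.bd (shift (pt (n : ℤ) 0) y)
            rw [abs_le] at b2 b3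
            set N := ((range n).filter fun k => inc0 c (shift (pt (k : ℕ) 0) y) ≠ σ).card with hN
            have hN4 : N ≤ 4 * m := by
              rw [hy] at hc1
              zify
              rcases hσ with h | h <;> rw [h] at hc1 <;> linarith
            calc (N : ℝ≥0∞) ≤ ((4 * m : ℕ) : ℝ≥0∞) := Nat.cast_le.2 hN4
              _ = 4 * m := by push_cast; ring
      _ = 4 * m + n * iid d ν (badSet c α n ((n : ℕ) * σ)) := by
          rw [lintegral_add_left measurable_const, lintegral_indicator hmeasB]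
          simp
      _ ≤ 4 * m + n * (J * δ) := by gcongr
  rw [hint] at hle
  have hm0 : (m : ℝ≥0∞) ≠ 0 := by
    simp; omega
  have hle2 : (m : ℝ≥0∞) * (J * iid d ν {y | inc0 c y ≠ σ}) ≤ m * (4 + J ^ 2 * δ) := by
    calc (m : ℝ≥0∞) * (J * iid d ν {y | inc0 c y ≠ σ}) = n * iid d ν {y | inc0 c y ≠ σ} := by
          rw [hn]; push_cast; ring
      _ ≤ _ := hle
      _ = m * (4 + J ^ 2 * δ) := by rw [hn]; push_cast; ring
  exact (ENNReal.mul_le_mul_iff_right hm0 (ENNReal.natCast_ne_top m)).1 hle2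

end Core

end Pool.Agent.FFIID
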