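import Mathlib
import Pool.Agent.Lib_helper92.FFIID.Upper3

/-!
# The lower tail bound for the coding radius with a universal constant
-/

open MeasureTheory Finset
open scoped ENNReal

namespace Pool.Agent.FFIID

section Core

variable {d : ℕ} {E : Type*} [MeasurableSpace E] {ν : Measure E} [IsProbabilityMeasure ν]
variable {hd : 2 ≤ d} {c g : (Site d → E) → Fin 3} {m : ℕ} {q δ : ℝ≥0∞}
variable {α : (Site d → E) → ℤ} {k : ℕ → ℤ}

/-- Reduction of an integer modulo `3`. -/
def red (n : ℤ) : Fin 3 := if n % 3 = 0 then 0 else if n % 3 = 1 then 1 else 2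

lemma red_add (a b : ℤ) : red (a + b) = red a + red b := by
  unfold red
  have h1 : a % 3 = 0 ∨ a % 3 = 1 ∨ a % 3 = 2 := by omega
  have h2 : b % 3 = 0 ∨ b % 3 = 1 ∨ b % 3 = 2 := by omega
  rw [Int.add_emod]
  rcases h1 with h1 | h1 | h1 <;> rcases h2 with h2 | h2 | h2 <;> rw [h1, h2] <;> decide

lemma red_inc : ∀ a b : Fin 3, a ≠ b → b = a + red (inc a b) := by
  decide

lemma red_ne {σ : ℤ} (hσ : σ = 1 ∨ σ = -1) : ∀ a : Fin 3, a ≠ a + red σ := by
  rcases hσ with rfl | rfl <;> decide

omit [MeasurableSpace E] in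
lemma color_add_hs (y : Site d → E)
    (h : ∀ k : ℕ, c (shift (pt k 0) y) ≠ c (shift (pt (k + 1) 0) y)) (K : ℕ) :
    c (shift (pt K 0) y) = c y + red (hs c y K 0) := by
  induction K with
  | zero => simp [pt_zero, shift_zero', hs, red]
  | succ K ih =>
    rw [hs_succ, red_add, ← add_assoc, ← ih]
    have := red_inc _ _ (h K)
    unfold inc0
    rw [shift_shift, pt_add]
    have e : (pt (1 + (K : ℤ)) (0 + 0) : Site d) = pt ((K : ℤ) + 1) 0 := by
      rw [add_comm]; simp
    rw [e]
    push_cast
    exact this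

/-- the relation of phases -/
lemma phase_aux (y : Site d → E)
    (h : ∀ k : ℕ, c (shift (pt k 0) y) ≠ c (shift (pt (k + 1) 0) y)) (K : ℕ) {κ : ℤ}
    (hb : y ∉ badSet c α K κ) :
    c (shift (pt K 0) y) - red (α (shift (pt K 0) y)) = c y - red (α y) + red κ := by
  simp only [badSet, Set.mem_ofPred_eq, ne_eq, not_not] at hb
  have h1 := color_add_hs y h K
  rw [h1, hb, red_add]
  have e : red (α (shift (pt (K : ℤ) 0) y)) = red (α (shift (pt (K : ℤ) 0) y) - α y) +
      red (α y) := by rw [← red_add]; congr 1; ring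
  rw [e]
  generalize red (α (shift (pt (K : ℤ) 0) y) - α y) = u
  generalize red (α y) = v
  generalize c y = w
  generalize red κ = x
  revert u v w x
  decide

/-- The core estimate: a local function of range `m` differs from (the colour at the origin of) a
proper `3`-colouring with probability at least `1 / (398 m)`. -/
theorem Setup.core (H : Setup ν hd c g m q) : 1 ≤ 398 * m * q := by
  by_contra hcon
  rw [not_le] at hcon
  obtain ⟨α, k, C, hαl⟩ := H.selection_two
  set δ : ℝ≥0∞ := 56 * m * q with hδ
  have hm := H.hm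
  have hc := H.hc
  have hm1 : (1 : ℝ≥0∞) ≤ m := by exact_mod_cast hm
  have hsum : 7 * δ + 6 * q ≤ 398 * m * q := by
    calc 7 * δ + 6 * q = 392 * m * q + 6 * 1 * q := by rw [hδ]; ring
      _ ≤ 392 * m * q + 6 * m * q := by gcongr
      _ = 398 * m * q := by ring
  have hlt : 7 * δ + 6 * q < 1 := lt_of_le_of_lt hsum hcon
  have h5 : ((5 : ℕ) : ℝ≥0∞) * δ < 1 := by
    refine lt_of_le_of_lt (le_trans ?_ le_self_add) hlt
    gcongr; norm_num
  have h3 : 3 * δ < 1 := by
    refine lt_of_le_of_lt (le_trans ?_ le_self_add) hlt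
    gcongr; norm_num
  have hσ := C.slope hc hm le_rfl h5
  have hit := C.iter' hc hm h3 3
  have hone := C.bound' (K := 1) hm
  set σ := k 1 with hσdef
  -- properness along the axis
  have hprop : ∀ᵐ y ∂(iid d ν), ∀ k : ℕ, c (shift (pt k 0) y) ≠ c (shift (pt (k + 1) 0) y) := by
    filter_upwards [H.hprop] with y hy k
    have := (hy k 0).1
    exact_mod_cast this
  -- the local phase
  set P : (Site d → E) → Fin 3 := fun y => g y - red (α y) with hP
  have hredm : Measurable red := Measurable.of_discrete
  have hsubm : Measurable (fun p : Fin 3 × Fin 3 => p.1 - p.2) := Measurable.of_discrete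
  have hPm : Measurable P := hsubm.comp (H.hg.prodMk (hredm.comp C.meas))
  set v : Site d := pt ((3 * m : ℕ) : ℤ) 0 with hv
  set κ : Fin 3 := red (((3 * m : ℕ) : ℤ) * σ) with hκ
  set B : Set (Site d → E) := {y | P (shift v y) ≠ P y + κ} with hB
  have hBm : MeasurableSet B := by
    refine (measurableSet_eq_fun (hPm.comp (measurable_shift _)) ?_).compl
    exact (Measurable.of_discrete (f := fun a : Fin 3 => a + κ)).comp hPm
  have hBle : iid d ν B ≤ 3 * δ + 2 * q := by
    have hsub : B ⊆ {y | ¬ ∀ k : ℕ, c (shift (pt k 0) y) ≠ c (shift (pt (k + 1) 0) y)} ∪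
        (badSet c α (3 * m) ((3 * m : ℕ) * σ) ∪
        ({y | c y ≠ g y} ∪ {y | c (shift v y) ≠ g (shift v y)})) := by
      intro y hy
      by_contra hcon
      simp only [Set.mem_union, Set.mem_ofPred_eq, not_or, not_not, ne_eq] at hcon
      obtain ⟨h1, h2, h4, h6⟩ := hcon
      apply hy
      have := phase_aux y h1 (3 * m) h2
      simp only [hP]
      rw [← h4, ← h6]
      exact this
    refine (measure_mono hsub).trans ((measure_union_le _ _).trans ?_)
    rw [show iid d ν {y | ¬ ∀ k : ℕ, c (shift (pt k 0) y) ≠ c (shift (pt (k + 1) 0) y)} = 0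
      from hprop, zero_add]
    refine ((measure_union_le _ _).trans (add_le_add hit
      ((measure_union_le _ _).trans (add_le_add H.hq (H.bad_shift v))))).trans ?_
    apply le_of_eq; push_cast; ring
  obtain ⟨z, hz⟩ := exists_splice_le ν {u : Site d | |u (i0 hd)| ≤ m} hBm
  set S : Set (Site d) := {u : Site d | |u (i0 hd)| ≤ m} with hSdef
  set a : Fin 3 := P (shift v z) - κ with ha
  have hPa : iid d ν {y | P y ≠ a} ≤ 3 * δ + 2 * q := by
    have hsub : {y | P y ≠ a} ⊆ {y | splice S y z ∈ B} := by
      intro y hy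
      by_contra hcon
      simp only [Set.mem_ofPred_eq, hB, not_not, ne_eq] at hcon
      apply hy
      have e1 : P (splice S y z) = P y := by
        simp only [hP]
        rw [H.hloc _ y fun u hu => splice_of_mem (hu (i0 hd)),
          hαl _ y fun u hu => splice_of_mem hu]
      have e2 : P (shift v (splice S y z)) = P (shift v z) := by
        simp only [hP]
        have aux : ∀ u : Site d, |u (i0 hd)| ≤ m →
            shift v (splice S y z) u = shift v z u := by
          intro u hu
          unfold shift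
          refine splice_of_notMem ?_
          rw [hSdef, Set.mem_ofPred_eq, Pi.add_apply, hv, pt_i0]
          rw [abs_le] at hu ⊢
          push_cast
          omega
        rw [H.hloc _ (shift v z) fun u hu => aux u (hu (i0 hd)), hαl _ (shift v z) aux]
      rw [e1, e2] at hcon
      rw [ha, hcon]
      simp
    exact (measure_mono hsub).trans (hz.trans hBle)
  have hPam : MeasurableSet {y | P y ≠ a} := (hPm (measurableSet_singleton a)).compl
  have hfin : (1 : ℝ≥0∞) ≤ 7 * δ + 6 * q := by
    set w : Site d := pt ((1 : ℕ) : ℤ) 0 with hw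
    have hsub : (Set.univ : Set (Site d → E)) ⊆
        {y | ¬ ∀ k : ℕ, c (shift (pt k 0) y) ≠ c (shift (pt (k + 1) 0) y)} ∪
        (badSet c α 1 σ ∪ (({y | P y ≠ a} ∪ {y | c y ≠ g y}) ∪
        ({y | shift w y ∈ {y | P y ≠ a}} ∪ {y | c (shift w y) ≠ g (shift w y)}))) := by
      intro y _
      by_contra hcon
      simp only [Set.mem_union, Set.mem_ofPred_eq, not_or, not_not, ne_eq] at hcon
      obtain ⟨h1, h2, ⟨h4, h6⟩, h7, h8⟩ := hcon
      have := phase_aux y h1 1 h2
      simp only [hP] at h4 h7
      rw [h6, h8, h4, h7] at this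
      exact red_ne hσ _ this
    have := measure_mono (μ := iid d ν) hsub
    rw [measure_univ] at this
    refine this.trans ((measure_union_le _ _).trans ?_)
    rw [show iid d ν {y | ¬ ∀ k : ℕ, c (shift (pt k 0) y) ≠ c (shift (pt (k + 1) 0) y)} = 0
      from hprop, zero_add]
    refine ((measure_union_le _ _).trans (add_le_add hone
      ((measure_union_le _ _).trans (add_le_add
        ((measure_union_le _ _).trans (add_le_add hPa H.hq))
        ((measure_union_le _ _).trans (add_le_add
          ((shift_meas_preimage _ hPam).le.trans hPa) (H.bad_shift w))))))).trans ?_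
    apply le_of_eq; ring
  exact absurd hfin (not_le.2 hlt)

end Core

end Pool.Agent.FFIID
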