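import Mathlib
import Pool.Agent.Lib_helper92.FFIID.Upper5

/-!
# Tail and moments of the coding radius
-/

open MeasureTheory Finset
open scoped ENNReal

namespace Pool.Agent.FFIID

section Tail

variable {d : ℕ} {E : Type*} {F : (Site d → E) → Site d → Fin 3}

lemma natAbs_le_l1 (u : Site d) (a : Fin d) : (u a).natAbs ≤ l1 u :=
  Finset.single_le_sum (f := fun i => (u i).natAbs) (fun _ _ => Nat.zero_le _) (mem_univ a)

/-- The sup-norm ball. -/
def supBall (d m : ℕ) : Set (Site d) := {u | ∀ a, |u a| ≤ m}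

/-- The truncated colour: all labels outside the sup-norm ball of radius `m` are replaced by a
constant. -/
noncomputable def trunc (F : (Site d → E) → Site d → Fin 3) (e : E) (m : ℕ) (y : Site d → E) :
    Fin 3 := F (splice (supBall d m) y (fun _ => e)) 0

lemma trunc_local (F : (Site d → E) → Site d → Fin 3) (e : E) (m : ℕ) :
    IsLocal m (trunc F e m) := by
  intro y y' h
  unfold trunc
  have : splice (supBall d m) y (fun _ => e) = splice (supBall d m) y' (fun _ => e) := by
    funext u
    by_cases hu : u ∈ supBall d m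
    · rw [splice_of_mem hu, splice_of_mem hu]; exact h u hu
    · rw [splice_of_notMem hu, splice_of_notMem hu]
  rw [this]

lemma measurable_trunc [MeasurableSpace E] (hF : Measurable F) (e : E) (m : ℕ) :
    Measurable (trunc F e m) :=
  (measurable_pi_apply 0).comp (hF.comp (measurable_splice_left _ _))

/-- If the truncated colour is wrong, the coding radius is larger than `m`. -/
lemma lt_codingRadius (e : E) {m : ℕ} {y : Site d → E} (h : F y 0 ≠ trunc F e m y) :
    ((m + 1 : ℕ) : ℝ≥0∞) ≤ codingRadius F y := by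
  unfold codingRadius
  refine le_iInf fun r => le_iInf fun hr => ?_
  have : m < r := by
    by_contra hcon
    push Not at hcon
    apply h
    unfold trunc
    refine (hr _ fun u hu => splice_of_mem ?_).symm
    intro a
    have h1 := natAbs_le_l1 u a
    have h2 : (u a).natAbs ≤ m := by omega
    rw [Int.abs_eq_natAbs]
    exact_mod_cast h2
  exact_mod_cast this

variable [MeasurableSpace E] {ν : Measure E} [IsProbabilityMeasure ν]

lemma IsFFIIDColoring.color_shift (hF : IsFFIIDColoring d ν F) (v : Site d) (y : Site d → E) :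
    F (shift v y) 0 = F y v := by
  rw [hF.equivariant]; simp [shift]

lemma IsFFIIDColoring.setup (hd : 2 ≤ d) (hF : IsFFIIDColoring d ν F) (e : E) {m : ℕ}
    (hm : 1 ≤ m) : Setup ν hd (fun y => F y 0) (trunc F e m) m
      (iid d ν {y | F y 0 ≠ trunc F e m y}) where
  hc := (measurable_pi_apply 0).comp hF.measurable
  hg := measurable_trunc hF.measurable e m
  hm := hm
  hloc := trunc_local F e m
  hq := le_rfl
  hprop := by
    filter_upwards [hF.proper] with y hy i j
    simp only [hF.color_shift]
    exact ⟨hy _ _ (adj_pt_right hd _ _), hy _ _ (adj_pt_up hd _ _)⟩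

/-- The event that truncation at `m` gives the wrong colour has probability `≥ 1 / (398 m)`. -/
lemma IsFFIIDColoring.trunc_bound (hd : 2 ≤ d) (hF : IsFFIIDColoring d ν F) (e : E) {m : ℕ}
    (hm : 1 ≤ m) : 1 ≤ 398 * m * iid d ν {y | F y 0 ≠ trunc F e m y} :=
  (hF.setup hd e hm).core

/-- **Lower tail bound** -/
theorem IsFFIIDColoring.tail (hd : 2 ≤ d) (hF : IsFFIIDColoring d ν F) {n : ℕ} (hn : 1 ≤ n) :
    1 / (398 * n) ≤ iid d ν {y | (n : ℝ≥0∞) < codingRadius F y} := by
  obtain ⟨e⟩ : Nonempty E := nonempty_of_isProbabilityMeasure ν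
  have h := hF.trunc_bound hd e hn
  have hsub : {y | F y 0 ≠ trunc F e n y} ⊆ {y | (n : ℝ≥0∞) < codingRadius F y} := by
    intro y hy
    refine lt_of_lt_of_le ?_ (lt_codingRadius e hy)
    exact_mod_cast Nat.lt_succ_self n
  have hle : iid d ν {y | F y 0 ≠ trunc F e n y} ≤ _ := measure_mono hsub
  have h0 : (398 * n : ℝ≥0∞) ≠ 0 := by
    simp; omega
  have htop : (398 * n : ℝ≥0∞) ≠ ⊤ := ENNReal.mul_ne_top (by norm_num) (ENNReal.natCast_ne_top n)
  rw [ENNReal.div_le_iff h0 htop]
  calc 1 ≤ 398 * n * iid d ν {y | F y 0 ≠ trunc F e n y} := h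
    _ = iid d ν {y | F y 0 ≠ trunc F e n y} * (398 * n) := by ring
    _ ≤ _ := by gcongr

open scoped Classical in
/-- The partial sums of indicators are dominated by the coding radius. -/
lemma sum_indicator_le (e : E) (M : ℕ) (y : Site d → E) :
    ∑ m ∈ range M, ({y | F y 0 ≠ trunc F e m y}.indicator (fun _ => (1 : ℝ≥0∞)) y) ≤
      codingRadius F y := by
  have h1 : ∑ m ∈ range M, ({y | F y 0 ≠ trunc F e m y}.indicator (fun _ => (1 : ℝ≥0∞)) y) =
      (((range M).filter fun m => F y 0 ≠ trunc F e m y).card : ℝ≥0∞) := by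
    rw [Finset.card_filter]
    push_cast
    refine sum_congr rfl fun k _ => ?_
    simp only [Set.indicator, Set.mem_ofPred_eq]
  rw [h1]
  set T := (range M).filter fun m => F y 0 ≠ trunc F e m y with hT
  rcases T.eq_empty_or_nonempty with hE | hN
  · rw [hE]; simp
  · set k := T.max' hN with hk
    have hkT : k ∈ T := T.max'_mem hN
    have hk2 : F y 0 ≠ trunc F e k y := (mem_filter.1 hkT).2
    refine le_trans ?_ (lt_codingRadius e hk2)
    have hsub : T ⊆ range (k + 1) := fun x hx => mem_range.2 (Nat.lt_succ_of_le (T.le_max' x hx))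
    have := card_le_card hsub
    rw [card_range] at this
    exact_mod_cast this

lemma one_le_codingRadius_of_ne_zero {y : Site d → E} (h : codingRadius F y ≠ 0) :
    1 ≤ codingRadius F y := by
  unfold codingRadius at h ⊢
  refine le_iInf fun r => le_iInf fun hr => ?_
  rcases Nat.eq_zero_or_pos r with rfl | hpos
  · exfalso
    apply h
    refine le_antisymm ?_ bot_le
    exact (iInf₂_le 0 hr).trans (by simp)
  · exact_mod_cast hpos

lemma codingRadius_le_rpow {α : ℝ} (hα : 1 ≤ α) (y : Site d → E) :
    codingRadius F y ≤ codingRadius F y ^ α := by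
  by_cases h : codingRadius F y = 0
  · rw [h]; exact bot_le
  · have h1 := one_le_codingRadius_of_ne_zero h
    calc codingRadius F y = codingRadius F y ^ (1 : ℝ) := (ENNReal.rpow_one _).symm
      _ ≤ codingRadius F y ^ α := ENNReal.rpow_le_rpow_of_exponent_le h1 hα

/-- **Infinite mean**. -/
theorem IsFFIIDColoring.moment (hd : 2 ≤ d) (hF : IsFFIIDColoring d ν F) {α : ℝ} (hα : 1 ≤ α) :
    ∫⁻ y, codingRadius F y ^ α ∂(iid d ν) = ⊤ := by
  obtain ⟨e⟩ : Nonempty E := nonempty_of_isProbabilityMeasure ν
  have hmeas : ∀ m, MeasurableSet {y | F y 0 ≠ trunc F e m y} := fun m =>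
    (measurableSet_eq_fun ((measurable_pi_apply 0).comp hF.measurable)
      (measurable_trunc hF.measurable e m)).compl
  have hlow : ∀ M : ℕ, ∑ m ∈ range M, iid d ν {y | F y 0 ≠ trunc F e m y} ≤
      ∫⁻ y, codingRadius F y ^ α ∂(iid d ν) := by
    intro M
    calc ∑ m ∈ range M, iid d ν {y | F y 0 ≠ trunc F e m y} =
        ∫⁻ y, ∑ m ∈ range M, ({y | F y 0 ≠ trunc F e m y}.indicator
          (fun _ => (1 : ℝ≥0∞)) y) ∂(iid d ν) := by
          rw [lintegral_finset_sum]
          · refine sum_congr rfl fun m _ => ?_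
            rw [lintegral_indicator (hmeas m)]; simp
          · intro m _
            exact measurable_const.indicator (hmeas m)
      _ ≤ ∫⁻ y, codingRadius F y ^ α ∂(iid d ν) := by
          refine lintegral_mono fun y => ?_
          exact (sum_indicator_le e M y).trans (codingRadius_le_rpow hα y)
  -- the harmonic series diverges
  by_contra hne
  have hharm : ∀ M : ℕ, ∑ m ∈ range M, ((398 : ℝ≥0∞) * (m + 1))⁻¹ ≤
      ∫⁻ y, codingRadius F y ^ α ∂(iid d ν) := by
    intro M
    refine le_trans ?_ (hlow (M + 1))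
    rw [sum_range_succ']
    refine le_trans (sum_le_sum fun m _ => ?_) le_self_add
    have h := hF.trunc_bound hd e (m := m + 1) (by omega)
    push_cast at h
    have h0 : (398 * (m + 1) : ℝ≥0∞) ≠ 0 := by positivity
    have htop : (398 * (m + 1) : ℝ≥0∞) ≠ ⊤ :=
      ENNReal.mul_ne_top (by norm_num) (by exact_mod_cast ENNReal.natCast_ne_top (m + 1))
    rw [← one_div, ENNReal.div_le_iff h0 htop, mul_comm]
    exact h
  set I := ∫⁻ y, codingRadius F y ^ α ∂(iid d ν) with hI
  have hreal : ∀ M : ℕ, ∑ m ∈ range M, (1 / ((m : ℝ) + 1)) ≤ 398 * I.toReal := by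
    intro M
    have h := ENNReal.toReal_mono hne (hharm M)
    rw [ENNReal.toReal_sum (fun m _ => by simp)] at h
    have h2 : ∀ m ∈ range M, (((398 : ℝ≥0∞) * (m + 1))⁻¹).toReal = (1 / ((m : ℝ) + 1)) / 398 := by
      intro m _
      rw [ENNReal.toReal_inv, ENNReal.toReal_mul, ENNReal.toReal_add (by simp) (by simp)]
      simp
      ring
    rw [sum_congr rfl h2, ← sum_div] at h
    linarith
  have hdiv := Real.tendsto_sum_range_one_div_nat_succ_atTop
  have := (hdiv.eventually (Filter.eventually_gt_atTop (398 * I.toReal))).exists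
  obtain ⟨M, hM⟩ := this
  exact absurd (hreal M) (not_le.2 hM)

end Tail

end Pool.Agent.FFIID
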